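import Pool.Agent.Lib.MP_a247fa_nt.Crit.CDefs

/-! CB/Defs: definitions for the bound `1/20` (critical orbits of the even integers). -/

set_option autoImplicit false

namespace Pool.Agent.Lib.MP_a247fa_nt.CB

open Pool.Agent.Lib.MP_e43fce_nt_nat
open Pool.Agent.Lib.MP_a247fa_nt (cf T dcf)
open Pool.Agent.Lib.MP_a247fa_nt.Crit

/-- late hit: after at least `J` letters the bound `MX` is at least `Z` -/
def LHit (J : ℕ) (Y Z : ℝ) (w : List ℕ) : Prop := ∃ v : List ℕ, v <:+ w ∧ J ≤ v.length ∧ Z ≤ MX Y v

/-- indicator of `LHit` -/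
noncomputable def lhit (J : ℕ) (Y Z : ℝ) (w : List ℕ) : ℝ := by
  classical exact if LHit J Y Z w then 1 else 0

/-- indicator: some odd iterate `root j n`, `j ≥ J`, is at least `n`, and the odd iterates up to it are `> N` -/
noncomputable def pL (J N n : ℕ) : ℝ := by
  classical exact if ∃ j : ℕ, J ≤ j ∧ n ≤ root j n ∧ ∀ i ≤ j, N < root i n then 1 else 0

/-- parities (`true` = odd) of `m, T m, ..., T^[J-1] m`, first one first -/
def pw : ℕ → ℕ → List Bool
  | 0, _ => []
  | J + 1, m => (m % 2 == 1) :: pw J (T m)

/-- the limit of one step for the scaled deviation `v = (x - n) n` -/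
noncomputable def stepV : Bool → ℝ → ℝ
  | true, v => 9 / 4 * v - 3 * Real.pi ^ 2 / 8 * v ^ 2
  | false, v => v / 4 + Real.pi ^ 2 / 8 * v ^ 2

/-- the limit deviation after the word `w`, started at `v` -/
noncomputable def runV (v : ℝ) : List Bool → ℝ
  | [] => v
  | b :: w => runV (stepV b v) w

/-- the limit ratio `T^[J] m / m` for the word `w` -/
noncomputable def runC (c : ℝ) : List Bool → ℝ
  | [] => c
  | b :: w => runC (if b then 3 / 2 * c else 1 / 2 * c) w

/-- the word `w` started at the deviation `v` leaves `[-0.679, 0)` to the left (before it becomes `≥ 0`) -/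
def Dead (v : ℝ) : List Bool → Prop
  | [] => v < -(679 / 1000)
  | b :: w => v < -(679 / 1000) ∨ (v < 0 ∧ Dead (stepV b v) w)

/-- number of dead words of length `J` -/
noncomputable def nD : ℕ → ℝ → ℝ
  | 0, v => by classical exact if v < -(679 / 1000) then 1 else 0
  | J + 1, v => by
    classical exact if v < -(679 / 1000) then 2 ^ (J + 1)
      else if v < 0 then nD J (stepV true v) + nD J (stepV false v) else 0

/-- the potential -/
noncomputable def pot (v : ℝ) : ℝ := by
  classical exact if v < -(679 / 1000) then 1 else if v < -(221 / 1000) then 1 / 2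
    else if v < 0 then 1064 / 1000 * √(-v) else 0

end Pool.Agent.Lib.MP_a247fa_nt.CB
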