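import Pool.Agent.Lib.MP_a247fa_nt.Crit.Left5
import Pool.Agent.Lib.MP_a247fa_nt.CB.Defs

/-! Start (40 min). The critical point of a large even `m`: `(c - m) m → -1/π²`.

As in `startJ_aux` (Crit/Left5.lean): `d = c - m` is negative, `e = -d`, `hc'`:
`(2m + 1 - 2e) π/4 sin (π e) = 1 - cos (π e) / 2`, and `2 m e ≤ 0.64`, so `e = O(1/m)`. With `sin y ∈ [y - y³/6, y]`
(`sin_lb_cubic`), `1 - cos (π e) ≤ 4.935 e²`: `m π²/2 e = 1/2 + O(1/m)`, i.e. `|m e - 1/π²| ≤ C / m`. -/

set_option autoImplicit false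

namespace Pool.Agent.Lib.MP_a247fa_nt.CB

open Pool.Agent.Lib.MP_a247fa_nt (T cf dcf)
open Pool.Agent.Lib.MP_a247fa_nt.Crit

/-- the deviation `e = -d` of the critical point of an even `n`: `n e` differs from `1/π²` by at most `2 e` -/
private lemma start_lim_aux {n : ℕ} (h : n % 2 = 0) (hn : 100 ≤ n) {d : ℝ} (hd1 : -(1 / 2) ≤ d)
    (hd2 : d ≤ 1 / 2) (hc : dcf (n + d) = 0) :
    0 < -d ∧ 2 * n * (-d) ≤ 0.64 ∧ |n * (-d) - 1 / Real.pi ^ 2| ≤ 2 * (-d) := by
  rw [Pool.Agent.Lib.MP_a247fa_nt.dcf_even n h d] at hc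
  have hn2 : (100 : ℝ) ≤ n := by exact_mod_cast hn
  have hpi := Real.pi_pos
  have hcos0 : 0 ≤ Real.cos (Real.pi * d) := by
    apply Real.cos_nonneg_of_mem_Icc
    constructor <;> nlinarith
  have hcos1 := Real.cos_le_one (Real.pi * d)
  have hneg : d < 0 := by
    by_contra hcon
    push Not at hcon
    have hs : 0 ≤ Real.sin (Real.pi * d) := by
      apply Real.sin_nonneg_of_nonneg_of_le_pi
      · nlinarith
      · nlinarith
    have h1 : 0 ≤ (2 * ((n : ℝ) + d) + 1) * Real.pi / 4 * Real.sin (Real.pi * d) := by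
      apply mul_nonneg _ hs
      have : 0 < 2 * ((n : ℝ) + d) + 1 := by linarith
      positivity
    linarith
  set e : ℝ := -d with he
  have hde : d = -e := by rw [he]; ring
  have he0 : 0 < e := by rw [he]; linarith
  have he1 : e ≤ 1 / 2 := by rw [he]; linarith
  rw [hde, show Real.pi * -e = -(Real.pi * e) by ring, Real.cos_neg, Real.sin_neg] at hc
  rw [hde, show Real.pi * -e = -(Real.pi * e) by ring, Real.cos_neg] at hcos0 hcos1
  set M : ℝ := 2 * n + 1 with hM
  have hM5 : 5 ≤ M := by rw [hM]; linarith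
  have hq2 : 9.869 < Real.pi ^ 2 := Pool.Agent.Lib.MP_a247fa_nt.pi_sq_gt
  have hq1 : Real.pi ^ 2 < 9.87 := Pool.Agent.Lib.MP_a247fa_nt.pi_sq_lt
  have hpi3 := Real.pi_gt_d2
  have hc' : (M - 2 * e) * Real.pi / 4 * Real.sin (Real.pi * e) =
      1 - Real.cos (Real.pi * e) / 2 := by
    have : 2 * ((n : ℝ) + -e) + 1 = M - 2 * e := by rw [hM]; ring
    rw [this] at hc
    linarith
  -- first bound
  have hs1 := Pool.Agent.Lib.MP_a247fa_nt.two_mul_le_sin he0.le he1
  have hb1 : (M - 1) * e ≤ 0.64 := by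
    have h2 : (M - 1) * Real.pi / 4 * (2 * e) ≤
        (M - 2 * e) * Real.pi / 4 * Real.sin (Real.pi * e) := by
      apply mul_le_mul _ hs1 (by positivity) _
      · have : M - 1 ≤ M - 2 * e := by linarith
        nlinarith
      · have : 0 < M - 2 * e := by linarith
        positivity
    have h3 : (M - 1) * Real.pi / 4 * (2 * e) = Real.pi / 2 * ((M - 1) * e) := by ring
    have h4 : 0 ≤ (M - 1) * e := by
      have : 0 ≤ M - 1 := by linarith
      positivity
    nlinarith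
  have hne : (n : ℝ) * e ≤ 0.32 := by
    rw [hM] at hb1
    linarith
  have hb2 : e ≤ 0.16 := by nlinarith
  have hq0 : 0 < Real.pi ^ 2 := by positivity
  refine ⟨he0, by rw [hM] at hb1; linarith, ?_⟩
  rw [abs_le]
  constructor
  · -- lower bound for `n e`
    have h1 : (M - 2 * e) * Real.pi / 4 * Real.sin (Real.pi * e) ≤ M * Real.pi / 4 * (Real.pi * e) := by
      apply mul_le_mul _ (Real.sin_le (by positivity)) _ (by positivity)
      · have : (M - 2 * e) ≤ M := by linarith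
        nlinarith
      · apply Real.sin_nonneg_of_nonneg_of_le_pi
        · positivity
        · nlinarith
    have h2 : M * Real.pi / 4 * (Real.pi * e) = Real.pi ^ 2 * (n * e / 2 + e / 4) := by
      rw [hM]; ring
    rw [hc', h2] at h1
    have h3 : 1 ≤ Real.pi ^ 2 * (n * e + e / 2) := by linarith
    have h4 : 1 / Real.pi ^ 2 ≤ n * e + e / 2 := by
      rw [div_le_iff₀ hq0]
      linarith
    linarith
  · -- upper bound
    have hs2 := Pool.Agent.Lib.MP_a247fa_nt.sin_lb_cubic he0.le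
    have hcub : 1 - Real.cos (Real.pi * e) ≤ 4.935 * e ^ 2 := by
      have := Pool.Agent.Lib.MP_a247fa_nt.one_sub_cos_le e
      nlinarith [sq_nonneg e]
    have he2 : e ^ 2 ≤ 0.0256 := by nlinarith
    have hlow : 0 ≤ Real.pi * e - Real.pi * (Real.pi ^ 2) * e ^ 3 / 6 := by
      have e1 : Real.pi * e - Real.pi * (Real.pi ^ 2) * e ^ 3 / 6 =
          Real.pi * e * (1 - Real.pi ^ 2 * e ^ 2 / 6) := by ring
      rw [e1]
      apply mul_nonneg (by positivity)
      have h4 : Real.pi ^ 2 * e ^ 2 ≤ 9.87 * 0.0256 := mul_le_mul hq1.le he2 (sq_nonneg e) (by norm_num)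
      norm_num at h4
      linarith
    have h1 : (M - 1) * Real.pi / 4 * (Real.pi * e - Real.pi * (Real.pi ^ 2) * e ^ 3 / 6) ≤
        (M - 2 * e) * Real.pi / 4 * Real.sin (Real.pi * e) := by
      apply mul_le_mul _ hs2 hlow _
      · have : M - 1 ≤ M - 2 * e := by linarith
        nlinarith
      · have : 0 < M - 2 * e := by linarith
        positivity
    have h2 : (M - 1) * Real.pi / 4 * (Real.pi * e - Real.pi * (Real.pi ^ 2) * e ^ 3 / 6) =
        Real.pi ^ 2 * (n * e) / 2 - Real.pi ^ 2 * Real.pi ^ 2 * (n * e) * e ^ 2 / 12 := by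
      rw [hM]; ring
    rw [hc', h2] at h1
    have hne0 : 0 ≤ (n : ℝ) * e := by positivity
    have h3 : Real.pi ^ 2 * Real.pi ^ 2 * (n * e) ≤ 9.87 * 9.87 * 0.32 := by
      apply mul_le_mul _ hne hne0 (by norm_num)
      exact mul_le_mul hq1.le hq1.le hq0.le (by norm_num)
    have h4 : Real.pi ^ 2 * Real.pi ^ 2 * (n * e) * e ^ 2 ≤ 9.87 * 9.87 * 0.32 * e ^ 2 :=
      mul_le_mul_of_nonneg_right h3 (sq_nonneg e)
    have h5 : e ^ 2 ≤ 0.16 * e := by nlinarith
    have h6 : Real.pi ^ 2 * (n * e) ≤ 1 + 2 * 9.869 * e := by linarith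
    have h7 : Real.pi ^ 2 * (n * e) ≤ 1 + Real.pi ^ 2 * (2 * e) := by nlinarith
    have h8 : n * e - 2 * e ≤ 1 / Real.pi ^ 2 := by
      rw [le_div_iff₀ hq0]
      linarith
    linarith

theorem start_lim {ε : ℝ} (hε : 0 < ε) : ∃ B : ℕ, ∀ m : ℕ, B ≤ m → m % 2 = 0 → ∀ c : ℝ, IsCrit m c →
    |(c - m) * m - (-(1 / Real.pi ^ 2))| < ε := by
  obtain ⟨B, hB⟩ := exists_nat_gt (1 / ε)
  refine ⟨B + 100, fun m hm heven c hc => ?_⟩
  obtain ⟨hc1, hc2⟩ := hc
  have habs := abs_le.mp hc1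
  have e1 : c = m + (c - m) := by ring
  obtain ⟨h1, h2, h3⟩ := start_lim_aux heven (by omega) (d := c - m) habs.1 habs.2 (by rw [← e1]; exact hc2)
  have hm0 : (0 : ℝ) < m := by
    have : 0 < m := by omega
    exact_mod_cast this
  have hmB : (B : ℝ) ≤ m := by
    have : B ≤ m := by omega
    exact_mod_cast this
  have h4 : 1 < ε * m := by
    have h5 : 1 / ε < m := hB.trans_le hmB
    rw [div_lt_iff₀ hε] at h5
    linarith
  have h5 : 2 * (-(c - m)) < ε := by
    have h6 : m * (2 * (-(c - m))) < m * ε := by linarith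
    exact lt_of_mul_lt_mul_left h6 hm0.le
  have h6 : |(c - m) * m - (-(1 / Real.pi ^ 2))| = |m * (-(c - m)) - 1 / Real.pi ^ 2| := by
    rw [← abs_neg]
    congr 1
    ring
  rw [h6]
  exact h3.trans_lt h5

end Pool.Agent.Lib.MP_a247fa_nt.CB
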