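import Pool.Agent.Lib.MP_a247fa_nt.Crit.Final
import Pool.Agent.Lib.MP_a247fa_nt.CB.Defs

/-! StepEven (40 min). One step, even `n`: with `d = x - n`, `d n → V` and `n → ∞`; see StepOdd for the method.

`cf_even`: `cf (n + d) = n/2 + d/2 + ((2 n + 1)/4 + d/2) (1 - cos (π d))` (see `left5_even`, where `d = -e`), `T n = n/2` (`T_even`). So
`(cf x - T n) T n = d n / 4 + ((2n+1)/4 + d/2) (n/2) (1 - cos (π d)) → V/4 + 1/4 * π² V²/2`. -/

set_option autoImplicit false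

namespace Pool.Agent.Lib.MP_a247fa_nt.CB

open Pool.Agent.Lib.MP_a247fa_nt (T cf)

private lemma se_T {n : ℕ} (h : n % 2 = 0) : ((T n : ℕ) : ℝ) = n / 2 := by
  have h1 : T n = n / 2 := if_pos h
  obtain ⟨k, hk⟩ : ∃ k, n = 2 * k := ⟨n / 2, by omega⟩
  rw [h1, hk, Nat.mul_div_cancel_left k (by norm_num)]
  push_cast
  ring

private lemma se_cos {n : ℕ} (h : n % 2 = 0) (d : ℝ) :
    Real.cos (Real.pi * (n + d)) = Real.cos (Real.pi * d) := by
  obtain ⟨k, hk⟩ : ∃ k, n = 2 * k := ⟨n / 2, by omega⟩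
  have h1 : Real.pi * ((n : ℝ) + d) = Real.pi * d + k * (2 * Real.pi) := by
    rw [hk]
    push_cast
    ring
  rw [h1, Real.cos_add_nat_mul_two_pi]

private lemma se_main {n : ℕ} (h : n % 2 = 0) (d V : ℝ) :
    (cf (n + d) - ((T n : ℕ) : ℝ)) * ((T n : ℕ) : ℝ) - (V / 4 + Real.pi ^ 2 / 8 * V ^ 2) =
      (d * n - V) / 4 + (n : ℝ) ^ 2 / 4 * ((1 - Real.cos (Real.pi * d)) - (Real.pi * d) ^ 2 / 2) +
        Real.pi ^ 2 / 8 * ((d * n) ^ 2 - V ^ 2) + (n : ℝ) / 8 * (1 - Real.cos (Real.pi * d)) +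
        (d * n) / 4 * (1 - Real.cos (Real.pi * d)) := by
  rw [se_T h]
  unfold cf
  rw [se_cos h]
  ring

theorem step_even (V : ℝ) {ε : ℝ} (hε : 0 < ε) : ∃ δ : ℝ, 0 < δ ∧ ∃ B : ℕ, ∀ n : ℕ, B ≤ n → n % 2 = 0 →
    ∀ x : ℝ, |(x - n) * n - V| < δ →
      |(cf x - ((T n : ℕ) : ℝ)) * ((T n : ℕ) : ℝ) - (V / 4 + Real.pi ^ 2 / 8 * V ^ 2)| < ε := by
  obtain ⟨K, hKdef⟩ : ∃ K : ℝ, K = |V| + 1 := ⟨_, rfl⟩
  have hV0 := abs_nonneg V
  have hK : 1 ≤ K := by linarith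
  have hK0 : 0 < K := by linarith
  refine ⟨min 1 (ε / (6 * K)), lt_min one_pos (by positivity), ⌈10 * K ^ 4 / ε⌉₊ + ⌈4 * K⌉₊ + 1, ?_⟩
  intro n hn hpar x hx
  have hx1 : |(x - n) * n - V| < 1 := lt_of_lt_of_le hx (min_le_left _ _)
  have hx2 : |(x - n) * n - V| < ε / (6 * K) := lt_of_lt_of_le hx (min_le_right _ _)
  have hn' : ((⌈10 * K ^ 4 / ε⌉₊ : ℕ) : ℝ) + ((⌈4 * K⌉₊ : ℕ) : ℝ) + 1 ≤ n := by exact_mod_cast hn
  have hc1 := Nat.le_ceil (10 * K ^ 4 / ε)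
  have hc2 := Nat.le_ceil (4 * K)
  have hp1 : 0 < 10 * K ^ 4 / ε := by positivity
  have hn1 : 10 * K ^ 4 / ε < n := by linarith
  have hn2 : 4 * K ≤ n := by linarith
  have hn3 : (1 : ℝ) ≤ n := by linarith
  have hn0 : (0 : ℝ) < n := by linarith
  obtain ⟨d, hd⟩ : ∃ d, d = x - n := ⟨_, rfl⟩
  have hxd : x = n + d := by rw [hd]; ring
  rw [← hd] at hx1 hx2
  rw [hxd, se_main hpar]
  obtain ⟨u, hu⟩ : ∃ u, u = d * n := ⟨_, rfl⟩
  rw [← hu] at hx1 hx2 ⊢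
  have hu1 : |u| ≤ K := by
    have h1 : |u| ≤ |u - V| + |V| := by
      have := abs_add_le (u - V) V
      rwa [sub_add_cancel] at this
    linarith
  have hdn : |d| * n = |u| := by
    rw [hu, abs_mul, abs_of_pos hn0]
  have hdn1 : |d| * n ≤ K := by linarith
  have hd0 := abs_nonneg d
  -- q = K ^ 4 / n
  obtain ⟨q, hq⟩ : ∃ q : ℝ, q = K ^ 4 / n := ⟨_, rfl⟩
  have hqn : q * n = K ^ 4 := by rw [hq]; field_simp
  have hq0 : 0 < q := by rw [hq]; positivity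
  have hqε : 10 * q < ε := by
    rw [div_lt_iff₀ hε] at hn1
    rw [hq, mul_div_assoc', div_lt_iff₀ hn0]
    linarith
  have hdq : K ^ 3 * |d| ≤ q := by
    have h1 : K ^ 3 * |d| * n ≤ q * n := by
      rw [hqn]
      calc K ^ 3 * |d| * n = K ^ 3 * (|d| * n) := by ring
        _ ≤ K ^ 3 * K := mul_le_mul_of_nonneg_left hdn1 (by positivity)
        _ = K ^ 4 := by ring
    exact le_of_mul_le_mul_right h1 hn0
  have hpi0 := Real.pi_pos
  have hpi1 : Real.pi < 3.15 := Real.pi_lt_d2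
  have hpi2 : Real.pi ^ 2 ≤ 10 := by nlinarith
  have hpi4 : Real.pi ^ 4 ≤ 100 := by
    have h1 : Real.pi ^ 4 = Real.pi ^ 2 * Real.pi ^ 2 := by ring
    have h2 : 0 ≤ Real.pi ^ 2 := by positivity
    rw [h1]
    nlinarith
  have hd1 : |d| * 4 ≤ 1 := by
    have h1 : |d| * 4 * K ≤ 1 * K := by
      calc |d| * 4 * K = |d| * (4 * K) := by ring
        _ ≤ |d| * n := mul_le_mul_of_nonneg_left hn2 hd0
        _ ≤ 1 * K := by linarith
    exact le_of_mul_le_mul_right h1 hK0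
  have hpd : |Real.pi * d| ≤ 1 := by
    rw [abs_mul, abs_of_pos hpi0]
    nlinarith
  obtain ⟨c, hc⟩ : ∃ c, c = 1 - Real.cos (Real.pi * d) := ⟨_, rfl⟩
  rw [← hc]
  have hc0 : 0 ≤ c := by
    have := Real.cos_le_one (Real.pi * d)
    linarith
  have hcu : c ≤ (Real.pi * d) ^ 2 / 2 := by
    have := Real.one_sub_sq_div_two_le_cos (x := Real.pi * d)
    linarith
  have hcb : |c - (Real.pi * d) ^ 2 / 2| ≤ |Real.pi * d| ^ 4 * (5 / 96) := by
    have h1 := Real.cos_bound hpd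
    have h2 : c - (Real.pi * d) ^ 2 / 2 = -(Real.cos (Real.pi * d) - (1 - (Real.pi * d) ^ 2 / 2)) := by
      rw [hc]; ring
    rw [h2, abs_neg]
    exact h1
  have hd2 : |d| ^ 2 = d ^ 2 := sq_abs d
  have hcd : c ≤ 5 * |d| ^ 2 := by
    calc c ≤ (Real.pi * d) ^ 2 / 2 := hcu
      _ = Real.pi ^ 2 / 2 * |d| ^ 2 := by rw [hd2]; ring
      _ ≤ 5 * |d| ^ 2 := mul_le_mul_of_nonneg_right (by linarith) (by positivity)
  -- the five terms
  have t2 : |(n : ℝ) ^ 2 / 4 * (c - (Real.pi * d) ^ 2 / 2)| ≤ 2 * q := by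
    rw [abs_mul, abs_of_nonneg (by positivity : (0 : ℝ) ≤ (n : ℝ) ^ 2 / 4)]
    calc (n : ℝ) ^ 2 / 4 * |c - (Real.pi * d) ^ 2 / 2|
        ≤ (n : ℝ) ^ 2 / 4 * (|Real.pi * d| ^ 4 * (5 / 96)) := mul_le_mul_of_nonneg_left hcb (by positivity)
      _ = Real.pi ^ 4 * (5 / 384) * ((|d| * n) ^ 2 * |d| ^ 2) := by
          rw [abs_mul, abs_of_pos hpi0]
          ring
      _ ≤ 2 * (K ^ 2 * |d| ^ 2) := by
          refine mul_le_mul (by linarith) ?_ (by positivity) (by norm_num)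
          exact mul_le_mul_of_nonneg_right (pow_le_pow_left₀ (by positivity) hdn1 2) (by positivity)
      _ ≤ 2 * (K ^ 3 * |d|) := by
          have h1 : |d| ≤ K := by linarith
          have h2 : K ^ 2 * |d| ^ 2 ≤ K ^ 3 * |d| := by
            calc K ^ 2 * |d| ^ 2 = K ^ 2 * |d| * |d| := by ring
              _ ≤ K ^ 2 * |d| * K := mul_le_mul_of_nonneg_left h1 (by positivity)
              _ = K ^ 3 * |d| := by ring
          linarith
      _ ≤ 2 * q := by linarith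
  have hKd : K * |d| ≤ K ^ 3 * |d| := by
    refine mul_le_mul_of_nonneg_right ?_ hd0
    nlinarith [sq_nonneg (K - 1)]
  have t4 : |(n : ℝ) / 8 * c| ≤ q := by
    rw [abs_of_nonneg (by positivity)]
    calc (n : ℝ) / 8 * c ≤ (n : ℝ) / 8 * (5 * |d| ^ 2) := mul_le_mul_of_nonneg_left hcd (by positivity)
      _ = 5 / 8 * ((|d| * n) * |d|) := by ring
      _ ≤ 1 * (K * |d|) :=
          mul_le_mul (by norm_num) (mul_le_mul_of_nonneg_right hdn1 hd0) (by positivity) (by norm_num)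
      _ ≤ q := by linarith
  have t5 : |u / 4 * c| ≤ 2 * q := by
    rw [abs_mul, abs_of_nonneg hc0, abs_div, abs_of_pos (by norm_num : (0 : ℝ) < 4)]
    calc |u| / 4 * c ≤ K / 4 * (5 * |d| ^ 2) :=
          mul_le_mul (by linarith) hcd hc0 (by positivity)
      _ = 5 / 4 * (K * |d|) * |d| := by ring
      _ ≤ 5 / 4 * (K * |d|) * 1 := mul_le_mul_of_nonneg_left (by linarith) (by positivity)
      _ ≤ 2 * q := by linarith
  have t3 : |Real.pi ^ 2 / 8 * (u ^ 2 - V ^ 2)| ≤ 5 / 2 * K * |u - V| := by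
    rw [abs_mul, abs_of_nonneg (by positivity : (0 : ℝ) ≤ Real.pi ^ 2 / 8),
      show u ^ 2 - V ^ 2 = (u + V) * (u - V) by ring, abs_mul]
    have h1 : |u + V| ≤ 2 * K := (abs_add_le u V).trans (by linarith)
    calc Real.pi ^ 2 / 8 * (|u + V| * |u - V|) ≤ 10 / 8 * (2 * K * |u - V|) :=
          mul_le_mul (by linarith) (mul_le_mul_of_nonneg_right h1 (abs_nonneg _)) (by positivity) (by norm_num)
      _ = 5 / 2 * K * |u - V| := by ring
  have t1 : |(u - V) / 4| ≤ 1 / 4 * K * |u - V| := by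
    rw [abs_div, abs_of_pos (by norm_num : (0 : ℝ) < 4)]
    have h1 : 0 ≤ |u - V| := abs_nonneg _
    nlinarith
  have hfin : 3 * K * |u - V| < ε / 2 := by
    rw [lt_div_iff₀ (by positivity)] at hx2
    linarith
  have hK3 : 0 ≤ K * |u - V| := by positivity
  calc |(u - V) / 4 + (n : ℝ) ^ 2 / 4 * (c - (Real.pi * d) ^ 2 / 2) + Real.pi ^ 2 / 8 * (u ^ 2 - V ^ 2) +
        (n : ℝ) / 8 * c + u / 4 * c|
      ≤ |(u - V) / 4| + |(n : ℝ) ^ 2 / 4 * (c - (Real.pi * d) ^ 2 / 2)| +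
        |Real.pi ^ 2 / 8 * (u ^ 2 - V ^ 2)| + |(n : ℝ) / 8 * c| + |u / 4 * c| := by
        refine (abs_add_le _ _).trans (add_le_add ?_ le_rfl)
        refine (abs_add_le _ _).trans (add_le_add ?_ le_rfl)
        refine (abs_add_le _ _).trans (add_le_add ?_ le_rfl)
        exact abs_add_le _ _
    _ < ε := by nlinarith

end Pool.Agent.Lib.MP_a247fa_nt.CB
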