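import Pool.Agent.Lib.MP_a247fa_nt.Crit.Final
import Pool.Agent.Lib.MP_a247fa_nt.CB.Alive

/-! Case: the critical orbit of an even `m` in a class which is not dead, if the `T`-orbit does not climb late. -/

set_option autoImplicit false

namespace Pool.Agent.Lib.MP_a247fa_nt.CB

open Pool.Agent.Lib.MP_e43fce_nt_nat
open Pool.Agent.Lib.MP_a247fa_nt (T cf dcf T_pos)
open Pool.Agent.Lib.MP_a247fa_nt.Crit

private theorem two_T (n : ℕ) : n ≤ 2 * T n := by
  unfold T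
  split_ifs <;> omega

theorem pow_T (m i : ℕ) : m ≤ 2 ^ i * T^[i] m := by
  induction i with
  | zero => simp
  | succ i ih =>
    rw [Function.iterate_succ_apply']
    have h := two_T (T^[i] m)
    calc m ≤ 2 ^ i * T^[i] m := ih
      _ ≤ 2 ^ i * (2 * T (T^[i] m)) := Nat.mul_le_mul_left _ h
      _ = 2 ^ (i + 1) * T (T^[i] m) := by ring

theorem pw_length (J : ℕ) : ∀ m : ℕ, (pw J m).length = J := by
  induction J with
  | zero => intro m; rfl
  | succ J ih => intro m; simp only [pw, List.length_cons, ih]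

theorem T_iter_pos' {m : ℕ} (hm : 0 < m) (k : ℕ) : 0 < T^[k] m := by
  induction k with
  | zero => simpa using hm
  | succ k ih => rw [Function.iterate_succ_apply']; exact T_pos ih

/-- at the first time `k1` with `T^[k1] m ≤ N` the orbit is in `InJ`, if there was no late climb -/
theorem inj_at {m N l k1 : ℕ} (hm : 100 ≤ m) (hbig : 2 ^ (l + 1) * (N + 1) ≤ m) {c : ℝ}
    (hJ : InJ (3 * (5 / 2 * (m : ℝ)) ^ 2) (T^[l + 1] m) (cf^[l + 1] c))
    (h3 : T^[k1] m ≤ N) (h4 : ∀ i : ℕ, i < k1 → N < T^[i] m)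
    (h2 : ¬ ∃ k : ℕ, l + 1 ≤ k ∧ (5 / 2 : ℝ) * (m : ℝ) < ((T^[k] m : ℕ) : ℝ) ∧ ∀ i ≤ k, N < T^[i] m) :
    InJ (3 * (5 / 2 * (m : ℝ)) ^ 2) (T^[k1] m) (cf^[k1] c) := by
  have h5 : l + 1 < k1 := by
    by_contra h6
    push Not at h6
    have h7 := pow_T m k1
    have h8 : 2 ^ k1 * T^[k1] m ≤ 2 ^ (l + 1) * N :=
      Nat.mul_le_mul (Nat.pow_le_pow_right (by norm_num) h6) h3
    have h9 : 2 ^ (l + 1) * N < 2 ^ (l + 1) * (N + 1) :=
      Nat.mul_lt_mul_of_pos_left (Nat.lt_succ_self N) (by positivity)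
    omega
  have hmN : (N : ℝ) ≤ m := by
    have h6 : N + 1 ≤ 2 ^ (l + 1) * (N + 1) := Nat.le_mul_of_pos_left _ (by positivity)
    have h7 : N ≤ m := by omega
    exact_mod_cast h7
  have hm0 : (0 : ℝ) ≤ m := Nat.cast_nonneg m
  have hm1 : (100 : ℝ) ≤ m := by exact_mod_cast hm
  have h6 : ∀ i : ℕ, l + 1 ≤ i → i ≤ k1 → ((T^[i] m : ℕ) : ℝ) ≤ 5 / 2 * m := by
    intro i hi1 hi
    rcases Nat.lt_or_ge i k1 with h7 | h7
    · by_contra h8
      push Not at h8
      exact h2 ⟨i, hi1, h8, fun i' hi' => h4 i' (by omega)⟩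
    · have h8 : i = k1 := by omega
      rw [h8]
      have h9 : ((T^[k1] m : ℕ) : ℝ) ≤ N := by exact_mod_cast h3
      linarith
  have h7 : ∀ i : ℕ, l + 1 ≤ i → i ≤ k1 → InJ (3 * (5 / 2 * (m : ℝ)) ^ 2) (T^[i] m) (cf^[i] c) := by
    intro i hi
    induction i, hi using Nat.le_induction with
    | base => exact fun _ => hJ
    | succ i hi ih =>
      intro hik
      have h8 := ih (by omega)
      rw [Function.iterate_succ_apply', Function.iterate_succ_apply']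
      apply stepJ (by linarith) (T_iter_pos' (by omega) i) (h6 i hi (by omega)) _ h8
      have := h6 (i + 1) (by omega) hik
      rwa [Function.iterate_succ_apply'] at this
  exact h7 k1 h5.le le_rfl

theorem alive_all (l : ℕ) : ∃ B : ℕ, ∀ m : ℕ, B ≤ m → m % 2 = 0 →
    ¬ Dead (-(1 / (8 * Real.pi ^ 2))) (pw l (T m)) → ∀ c : ℝ, IsCrit m c →
      InJ (3 * (5 / 2 * (m : ℝ)) ^ 2) (T^[l + 1] m) (cf^[l + 1] c) := by
  classical
  have h1 : ∀ w : List Bool, ∃ B : ℕ, ¬ Dead (-(1 / (8 * Real.pi ^ 2))) w → ∀ m : ℕ, B ≤ m →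
    m % 2 = 0 → pw w.length (T m) = w → ∀ c : ℝ, IsCrit m c →
      InJ (3 * (5 / 2 * (m : ℝ)) ^ 2) (T^[w.length + 1] m) (cf^[w.length + 1] c) := by
    intro w
    by_cases h : Dead (-(1 / (8 * Real.pi ^ 2))) w
    · exact ⟨0, fun h' => absurd h h'⟩
    · obtain ⟨B, hB⟩ := alive_fin w h
      exact ⟨B, fun _ => hB⟩
  choose Bw hBw using h1
  obtain ⟨B, hB⟩ := ((List.finite_length_eq Bool l).image Bw).bddAbove
  refine ⟨B, fun m hm he hd c hc => ?_⟩
  have hl := pw_length l (T m)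
  have h2 : Bw (pw l (T m)) ≤ B := hB ⟨_, hl, rfl⟩
  have h3 := hBw (pw l (T m)) hd m (h2.trans hm) he (by rw [hl]) c hc
  rwa [hl] at h3

end Pool.Agent.Lib.MP_a247fa_nt.CB
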