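import Pool.Agent.Lib.MP_a247fa_nt.Crit.HitProb
import Pool.Agent.Lib.MP_a247fa_nt.CB.Defs

/-! LateProb (40 min). Late hits are rare: square root potential.

(1) `E K = ∑ w ∈ words L K, pr w * √(MX Y w) ≤ (19/20)^K √Y + 11`: induction on `K` with `wb1_sum_succ` (as `gg_sum` in
Crit/HitProb.lean), `pr (a :: w) = pr w / 2^a` and `√(MX Y (a :: w)) = √(3 M + 1) / √(2^a) ≤ (√3 √M + 1) / √(2^a)`,
`∑_{a=1}^{L} 1 / (2^a √(2^a)) ≤ 1 / (2√2 - 1) ≤ 0.547` (geometric series with ratio `1/(2√2) ≤ 0.35356`), `√3 * 0.547 ≤ 0.9475`,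
`∑ pr w ≤ 1` (`BAD_mass`); so `E (K+1) ≤ 0.95 E K + 0.547`.
(2) `F K = ∑ w ∈ words L K, pr w * lhit J Y Z w`: `lhit (a :: w) ≤ lhit w + [J ≤ K + 1 and Z ≤ MX Y (a :: w)]`,
so `F (K+1) ≤ F K + [J ≤ K+1] E (K+1) / √Z` (`1 ≤ √M / √Z` if `Z ≤ M`); `F 0 ≤ [J = 0] √Y / √Z`.
Sum: `F K ≤ ∑_{j=J}^{K} E j / √Z ≤ (20 (19/20)^J √Y + 11 (K+1)) / √Z`. Induction hypothesis for a clean proof:
`F K ≤ (20 ((19/20)^J - (19/20)^(K+1)) √Y + 20 (K+1)) / √Z` for `J ≤ K`, and `F K = 0` for `K < J`. -/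

set_option autoImplicit false

namespace Pool.Agent.Lib.MP_a247fa_nt.CB

open Finset Pool.Agent.Lib.MP_e43fce_nt_nat
open Pool.Agent.Lib.MP_a247fa_nt.Crit

private theorem pr_cons (a : ℕ) (w : List ℕ) : pr (a :: w) = pr w * (1 / 2 ^ a) := by
  unfold pr
  rw [List.sum_cons, pow_add]
  field_simp

private theorem geom2 (L : ℕ) : ∑ j ∈ Icc 1 L, (1 : ℝ) / 2 ^ j ≤ 1 := by
  rw [wb1_geom]
  have : (0 : ℝ) ≤ 1 / 2 ^ L := by positivity
  linarith

private theorem term_le (a : ℕ) : (1 : ℝ) / 2 ^ a * (1 / √(2 ^ a)) ≤ (442 / 1250) ^ a := by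
  have h2 : (1250 / 884 : ℝ) ≤ √2 := Real.le_sqrt_of_sq_le (by norm_num)
  have h3 : (1250 / 884 : ℝ) ^ a ≤ √(2 ^ a) := by
    rw [Real.sqrt_eq_rpow, ← Real.rpow_natCast 2 a, ← Real.rpow_mul (by norm_num), mul_comm, Real.rpow_mul (by norm_num),
      ← Real.sqrt_eq_rpow, Real.rpow_natCast]
    exact pow_le_pow_left₀ (by norm_num) h2 a
  have h4 : (1 : ℝ) / √(2 ^ a) ≤ 1 / (1250 / 884 : ℝ) ^ a :=
    one_div_le_one_div_of_le (by positivity) h3
  calc (1 : ℝ) / 2 ^ a * (1 / √(2 ^ a)) ≤ 1 / 2 ^ a * (1 / (1250 / 884 : ℝ) ^ a) :=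
        mul_le_mul_of_nonneg_left h4 (by positivity)
    _ = (442 / 1250) ^ a := by
        rw [← one_div_pow, ← one_div_pow, ← mul_pow]
        norm_num

private theorem geomq (L : ℕ) : ∑ a ∈ Icc 1 L, (442 / 1250 : ℝ) ^ a ≤ 5472 / 10000 := by
  have h : ∑ a ∈ Icc 1 L, (442 / 1250 : ℝ) ^ a = (442 / 1250 - (442 / 1250) ^ (L + 1)) / (808 / 1250) := by
    induction L with
    | zero => norm_num
    | succ L ih =>
      rw [sum_Icc_succ_top (by omega), ih, pow_succ _ (L + 1)]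
      ring
  rw [h, div_le_iff₀ (by norm_num)]
  have : (0 : ℝ) ≤ (442 / 1250) ^ (L + 1) := by positivity
  linarith

private theorem sq_step {Y : ℝ} (hY : 0 ≤ Y) (L : ℕ) (w : List ℕ) :
    ∑ a ∈ Icc 1 L, (1 : ℝ) / 2 ^ a * √(MX Y (a :: w)) ≤ 19 / 20 * √(MX Y w) + 5472 / 10000 := by
  have hM := MX_nonneg hY w
  have h1 : ∀ a ∈ Icc 1 L, (1 : ℝ) / 2 ^ a * √(MX Y (a :: w)) ≤ (442 / 1250) ^ a * √(3 * MX Y w + 1) := by
    intro a _
    have h2 : √(MX Y (a :: w)) = √(3 * MX Y w + 1) * (1 / √(2 ^ a)) := by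
      show √((3 * MX Y w + 1) / 2 ^ a) = _
      rw [Real.sqrt_div (by positivity)]
      ring
    rw [h2]
    have h3 := term_le a
    have h4 : (0 : ℝ) ≤ √(3 * MX Y w + 1) := Real.sqrt_nonneg _
    nlinarith
  refine (sum_le_sum h1).trans ?_
  rw [← sum_mul]
  have h5 := geomq L
  have h6 : √(3 * MX Y w + 1) ≤ 17321 / 10000 * √(MX Y w) + 1 := by
    rw [Real.sqrt_le_left (by positivity)]
    have h7 := Real.sq_sqrt hM
    have h8 := Real.sqrt_nonneg (MX Y w)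
    nlinarith
  have h8 := Real.sqrt_nonneg (MX Y w)
  have h9 := Real.sqrt_nonneg (3 * MX Y w + 1)
  nlinarith

private theorem sq_sum {Y : ℝ} (hY : 0 ≤ Y) (L K : ℕ) :
    ∑ w ∈ words L K, pr w * √(MX Y w) ≤ (19 / 20) ^ K * √Y + 11 := by
  induction K with
  | zero =>
    have h1 : words L 0 = {[]} := rfl
    rw [h1, sum_singleton]
    have h2 : pr [] = 1 := by simp [pr]
    rw [h2]
    show 1 * √Y ≤ _
    linarith
  | succ K ih =>
    rw [wb1_sum_succ, sum_comm]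
    have h1 : ∀ w ∈ words L K, ∑ a ∈ Icc 1 L, pr (a :: w) * √(MX Y (a :: w)) ≤
        19 / 20 * (pr w * √(MX Y w)) + pr w * (5472 / 10000) := by
      intro w _
      have h2 : ∑ a ∈ Icc 1 L, pr (a :: w) * √(MX Y (a :: w)) =
          pr w * ∑ a ∈ Icc 1 L, (1 : ℝ) / 2 ^ a * √(MX Y (a :: w)) := by
        rw [mul_sum]
        exact sum_congr rfl (fun a _ => by rw [pr_cons, mul_assoc])
      have h3 := mul_le_mul_of_nonneg_left (sq_step hY L w) (BAD_pr_pos w).le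
      rw [h2]
      linarith
    refine (sum_le_sum h1).trans ?_
    rw [sum_add_distrib, ← sum_mul, ← mul_sum]
    have h3 := BAD_mass L K
    rw [pow_succ]
    linarith

private theorem lhit_zero {J L K : ℕ} {Y Z : ℝ} (h : K < J) {w : List ℕ} (hw : w ∈ words L K) :
    lhit J Y Z w = 0 := by
  unfold lhit
  rw [if_neg]
  rintro ⟨v, hv, hJ, -⟩
  have h1 := ((mem_words L K w).1 hw).1
  have h2 := hv.length_le
  omega

private theorem one_le_div {M Z : ℝ} (hZ : 0 < Z) (h : Z ≤ M) : 1 ≤ √M / √Z := by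
  rw [le_div_iff₀ (Real.sqrt_pos.2 hZ), one_mul]
  exact Real.sqrt_le_sqrt h

private theorem lhit_cons (J : ℕ) {Y Z : ℝ} (hZ : 0 < Z) (a : ℕ) (w : List ℕ) :
    lhit J Y Z (a :: w) ≤ lhit J Y Z w + √(MX Y (a :: w)) / √Z := by
  have h0 : 0 ≤ √(MX Y (a :: w)) / √Z := by positivity
  by_cases h1 : LHit J Y Z (a :: w)
  · have e1 : lhit J Y Z (a :: w) = 1 := by unfold lhit; rw [if_pos h1]
    rw [e1]
    obtain ⟨v, hv, hJ, hv2⟩ := h1
    rcases List.suffix_cons_iff.1 hv with rfl | h2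
    · have h3 := one_le_div hZ hv2
      have h4 : 0 ≤ lhit J Y Z w := by unfold lhit; split_ifs <;> norm_num
      linarith
    · have e2 : lhit J Y Z w = 1 := by unfold lhit; rw [if_pos ⟨v, h2, hJ, hv2⟩]
      rw [e2]
      linarith
  · have e1 : lhit J Y Z (a :: w) = 0 := by unfold lhit; rw [if_neg h1]
    have h4 : 0 ≤ lhit J Y Z w := by unfold lhit; split_ifs <;> norm_num
    rw [e1]
    linarith

private theorem lh_step (J L K : ℕ) {Y Z : ℝ} (hZ : 0 < Z) :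
    ∑ w ∈ words L (K + 1), pr w * lhit J Y Z w ≤ ∑ w ∈ words L K, pr w * lhit J Y Z w +
      (∑ w ∈ words L (K + 1), pr w * √(MX Y w)) / √Z := by
  have h0 : ∀ w : List ℕ, 0 ≤ lhit J Y Z w := fun w => by unfold lhit; split_ifs <;> norm_num
  rw [wb1_sum_succ L K, wb1_sum_succ L K]
  have h1 : ∑ j ∈ Icc 1 L, ∑ w ∈ words L K, pr (j :: w) * lhit J Y Z (j :: w) ≤
      ∑ j ∈ Icc 1 L, ∑ w ∈ words L K, (1 / 2 ^ j * (pr w * lhit J Y Z w) +
        pr (j :: w) * √(MX Y (j :: w)) / √Z) := by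
    refine sum_le_sum fun j _ => sum_le_sum fun w _ => ?_
    have h2 := mul_le_mul_of_nonneg_left (lhit_cons J (Y := Y) hZ j w) (BAD_pr_pos (j :: w)).le
    refine h2.trans (le_of_eq ?_)
    rw [mul_add, mul_div_assoc, pr_cons]
    ring
  refine h1.trans ?_
  have h2 : ∑ j ∈ Icc 1 L, ∑ w ∈ words L K, (1 / 2 ^ j * (pr w * lhit J Y Z w) +
        pr (j :: w) * √(MX Y (j :: w)) / √Z) = (∑ j ∈ Icc 1 L, (1 : ℝ) / 2 ^ j) * (∑ w ∈ words L K, pr w * lhit J Y Z w)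
        + (∑ j ∈ Icc 1 L, ∑ w ∈ words L K, pr (j :: w) * √(MX Y (j :: w))) / √Z := by
    rw [sum_mul, sum_div, ← sum_add_distrib]
    refine sum_congr rfl fun j _ => ?_
    rw [sum_add_distrib, mul_sum, sum_div]
  rw [h2]
  have h3 := geom2 L
  have h4 : 0 ≤ ∑ w ∈ words L K, pr w * lhit J Y Z w :=
    sum_nonneg fun w _ => mul_nonneg (BAD_pr_pos w).le (h0 w)
  have h5 : (∑ j ∈ Icc 1 L, (1 : ℝ) / 2 ^ j) * (∑ w ∈ words L K, pr w * lhit J Y Z w) ≤
      1 * (∑ w ∈ words L K, pr w * lhit J Y Z w) := mul_le_mul_of_nonneg_right h3 h4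
  linarith

private theorem late_aux (J L K : ℕ) {Y Z : ℝ} (hY : 0 ≤ Y) (hZ : 0 < Z) :
    (K < J → ∑ w ∈ words L K, pr w * lhit J Y Z w = 0) ∧
    (J ≤ K → ∑ w ∈ words L K, pr w * lhit J Y Z w ≤
      (20 * ((19 / 20) ^ J - (19 / 20) ^ (K + 1)) * √Y + 20 * (K + 1)) / √Z) := by
  have hs : 0 < √Z := Real.sqrt_pos.2 hZ
  have hz : ∀ K : ℕ, K < J → ∑ w ∈ words L K, pr w * lhit J Y Z w = 0 := fun K h =>
    sum_eq_zero fun w hw => by rw [lhit_zero h hw, mul_zero]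
  refine ⟨hz K, ?_⟩
  induction K with
  | zero =>
    intro h
    have hJ : J = 0 := by omega
    subst hJ
    have h1 : words L 0 = {[]} := rfl
    rw [h1, sum_singleton]
    have h2 : pr [] = 1 := by simp [pr]
    rw [h2, one_mul]
    have hY2 := Real.sqrt_nonneg Y
    have h3 : lhit 0 Y Z [] ≤ √Y / √Z := by
      by_cases h4 : LHit 0 Y Z []
      · have e1 : lhit 0 Y Z [] = 1 := by unfold lhit; rw [if_pos h4]
        rw [e1]
        obtain ⟨v, hv, -, hv2⟩ := h4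
        rw [List.suffix_nil.1 hv] at hv2
        exact one_le_div hZ hv2
      · have e1 : lhit 0 Y Z [] = 0 := by unfold lhit; rw [if_neg h4]
        rw [e1]
        positivity
    refine h3.trans ?_
    rw [div_le_div_iff_of_pos_right hs]
    push_cast
    norm_num
  | succ K ih =>
    intro h
    refine (lh_step J L K hZ).trans ?_
    have hE := div_le_div_of_nonneg_right (sq_sum hY L (K + 1)) hs.le
    rcases Nat.lt_or_ge K J with h1 | h1
    · have hJ : J = K + 1 := by omega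
      rw [hz K h1, zero_add]
      refine hE.trans ?_
      rw [div_le_div_iff_of_pos_right hs, hJ, pow_succ _ (K + 1)]
      push_cast
      have h2 : (0 : ℝ) ≤ K := Nat.cast_nonneg K
      nlinarith
    · have h2 := ih h1
      refine (add_le_add h2 hE).trans ?_
      rw [← add_div, div_le_div_iff_of_pos_right hs, pow_succ _ (K + 1)]
      push_cast
      nlinarith

theorem late_prob (J L K : ℕ) {Y Z : ℝ} (hY : 0 ≤ Y) (hZ : 0 < Z) :
    ∑ w ∈ words L K, pr w * lhit J Y Z w ≤ (20 * (19 / 20) ^ J * √Y + 20 * (K + 1)) / √Z := by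
  have hs : 0 < √Z := Real.sqrt_pos.2 hZ
  have hY2 := Real.sqrt_nonneg Y
  obtain ⟨h1, h2⟩ := late_aux J L K hY hZ
  rcases Nat.lt_or_ge K J with h | h
  · rw [h1 h]
    positivity
  · refine (h2 h).trans ?_
    rw [div_le_div_iff_of_pos_right hs]
    have h3 : (0 : ℝ) ≤ (19 / 20) ^ (K + 1) := by positivity
    have h4 := mul_nonneg h3 hY2
    nlinarith

end Pool.Agent.Lib.MP_a247fa_nt.CB
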