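import Pool.Agent.Lib.MP_a247fa_nt.Crit.HitCount
import Pool.Agent.Lib.MP_a247fa_nt.CB.Defs

/-! WCount (30 min). The word count for an arbitrary function of the word of `K` odd steps.

This is `hit_count` (Crit/HitCount.lean) with `hit Y Z (vw K n)` replaced by `φ (vw K n)`, `i = 0` (`MM_zero`) and the
bound `hit_prob` replaced by the hypothesis on `φ`: copy its proof (`word_upper`, `cnt_fiber`, `cnt_bad`, `bad_prob`,
`good_card`, `lemR_size`, `lemR_B`); the only place where `hit` is special is `h6`, replace it by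
`sum_le_sum_of_subset_of_nonneg` (Good is a filter of words) and the hypothesis. -/

set_option autoImplicit false

namespace Pool.Agent.Lib.MP_a247fa_nt.CB

open Finset Pool.Agent.Lib.MP_e43fce_nt_nat
open Pool.Agent.Lib.MP_a247fa_nt.Crit

theorem word_count : ∃ C x0 : ℝ, 0 < C ∧ 1 ≤ x0 ∧ ∀ x : ℝ, x0 ≤ x → ∀ K : ℕ,
    x / 10 ≤ (K : ℝ) → (K : ℝ) ≤ 3 * x / 10 → ∀ (φ : List ℕ → ℝ), (∀ w, 0 ≤ φ w ∧ φ w ≤ 1) →
    ∀ R : ℝ, ∑ w ∈ words (3 * K) K, pr w * φ w ≤ R →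
      ∑ n ∈ oddS (Real.exp x), φ (vw K n) ≤ Real.exp x * (1 / 2 * R + C * x ^ (-(1 / 4) : ℝ)) := by
  classical
  have h0 : (0 : ℝ) < 1 / 10 := by norm_num
  have h1 : (1 : ℝ) / 10 ≤ 1 / 10 := le_rfl
  obtain ⟨Cb, hCb, hbad⟩ := bad_prob h0 h1
  refine ⟨5 * Cb + 1100, 20, by positivity, by norm_num, ?_⟩
  intro x hx K hK1 hK2 φ hφ Q hQ
  have hi : (0 : ℕ) ^ 2 ≤ K := by simp
  have hx0 : (0 : ℝ) < x := by linarith
  set u : ℝ := x ^ (1 / 4 : ℝ) with hu
  have hu4 : u ^ 4 = x := by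
    rw [hu, ← Real.rpow_natCast, ← Real.rpow_mul hx0.le]
    norm_num
  have hu1 : 1 ≤ u := Real.one_le_rpow (by linarith) (by norm_num)
  have hu0 : 0 < u := by linarith
  have huy : x ^ (-(1 / 4) : ℝ) = 1 / u := by
    rw [Real.rpow_neg hx0.le]
    exact (one_div _).symm
  rw [huy]
  have hKr : (2 : ℝ) ≤ K := by linarith
  have hK : 2 ≤ K := by exact_mod_cast hKr
  have hxu : u ≤ x := by
    rw [← hu4]
    calc u = u ^ 1 := (pow_one u).symm
      _ ≤ u ^ 4 := pow_le_pow_right₀ hu1 (by norm_num)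
  have hxinv : 1 / x ≤ 1 / u := one_div_le_one_div_of_le hu0 hxu
  set X : ℝ := Real.exp x with hX
  have hX0 : 0 < X := Real.exp_pos x
  have hsize := lemR_size h1 hx0.le hK2 hi
  set R : ℝ := (2 : ℝ) ^ ((2 + 1 / 10) * (K : ℝ)) with hRdef
  have hR1 : 1 ≤ R := Real.one_le_rpow (by norm_num) (by positivity)
  have hG : ((Good (1 / 10) K).card : ℝ) ≤ R := good_card h0 h1 K
  have h3i : (1 : ℝ) ≤ 3 ^ 0 := one_le_pow₀ (by norm_num)
  have herrB : 3 ^ 0 * (1 + ((Good (1 / 10) K).card : ℝ)) +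
      ((K : ℝ) ^ 2 + 1) * (Good (1 / 10) K).card * 3 ^ 0 ≤ X * (1100 * (1 / u)) :=
    lemR_B hx hu0 hxinv hX h3i hR1 (by positivity) hK2 hG hsize
  have herrA : X / 2 * (1 - ∑ w ∈ Good (1 / 10) K, pr w) ≤ X * (5 * Cb * (1 / u)) := by
    have h5 := hbad K (by omega)
    have h6 : Cb / K ≤ 10 * Cb * (1 / u) := by
      calc Cb / K ≤ Cb / (x / 10) :=
            div_le_div_of_nonneg_left hCb.le (by positivity) hK1
        _ = 10 * Cb * (1 / x) := by
            field_simp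
        _ ≤ 10 * Cb * (1 / u) := mul_le_mul_of_nonneg_left hxinv (by positivity)
    calc X / 2 * (1 - ∑ w ∈ Good (1 / 10) K, pr w) ≤ X / 2 * (10 * Cb * (1 / u)) :=
          mul_le_mul_of_nonneg_left (h5.trans h6) (by positivity)
      _ = X * (5 * Cb * (1 / u)) := by ring
  -- the part with a bad word
  have hbadp : ∑ n ∈ (oddS X).filter (fun n => ¬ vw K n ∈ Good (1 / 10) K),
      φ (vw K n) * MM 0 (n : ℤ)
      ≤ X / 2 * (1 - ∑ w ∈ Good (1 / 10) K, pr w) + 3 ^ 0 * (1 + (Good (1 / 10) K).card) :=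
    cnt_bad hX0 (p := fun n => φ (vw K n)) fun n => hφ _
  -- the part with a good word
  have hgood : ∑ n ∈ (oddS X).filter (fun n => vw K n ∈ Good (1 / 10) K),
      φ (vw K n) * MM 0 (n : ℤ)
      ≤ X / 2 * Q + ((K : ℝ) ^ 2 + 1) * (Good (1 / 10) K).card * 3 ^ 0 := by
    rw [cnt_fiber (e := 1 / 10) (K := K) (X := X) (fun n => φ (vw K n) * MM 0 (n : ℤ))]
    have h2 : ∀ w ∈ Good (1 / 10) K,
        ∑ n ∈ (oddS X).filter (fun n => vw K n = w), φ (vw K n) * MM 0 (n : ℤ)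
          ≤ X / 2 * (pr w * φ w) + ((K : ℝ) ^ 2 + 1) * 3 ^ 0 := by
      intro w hw
      have h3 : ∑ n ∈ (oddS X).filter (fun n => vw K n = w), φ (vw K n) * MM 0 (n : ℤ)
          = φ w * ∑ n ∈ (oddS X).filter (fun n => vw K n = w), MM 0 (n : ℤ) := by
        rw [Finset.mul_sum]
        refine Finset.sum_congr rfl fun n hn => ?_
        rw [(Finset.mem_filter.1 hn).2]
      rw [h3]
      have h4 := mul_le_mul_of_nonneg_left (word_upper (i := 0) hw hX0) ((hφ w).1)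
      refine h4.trans ?_
      have h5 : φ w * (((K : ℝ) ^ 2 + 1) * 3 ^ 0) ≤ ((K : ℝ) ^ 2 + 1) * 3 ^ 0 :=
        mul_le_of_le_one_left (by positivity) ((hφ w).2)
      calc φ w * (X / 2 * pr w + ((K : ℝ) ^ 2 + 1) * 3 ^ 0)
          = X / 2 * (pr w * φ w) + φ w * (((K : ℝ) ^ 2 + 1) * 3 ^ 0) := by ring
        _ ≤ _ := by linarith
    refine (Finset.sum_le_sum h2).trans ?_
    rw [Finset.sum_add_distrib, ← Finset.mul_sum, Finset.sum_const, nsmul_eq_mul]
    have h6 : ∑ w ∈ Good (1 / 10) K, pr w * φ w ≤ Q := by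
      refine le_trans ?_ hQ
      refine Finset.sum_le_sum_of_subset_of_nonneg ?_ fun w _ _ => ?_
      · unfold Good
        exact Finset.filter_subset _ _
      · exact mul_nonneg (BAD_pr_pos w).le (hφ _).1
    have h7 := mul_le_mul_of_nonneg_left h6 (show (0 : ℝ) ≤ X / 2 by positivity)
    have h8 : ((Good (1 / 10) K).card : ℝ) * (((K : ℝ) ^ 2 + 1) * 3 ^ 0)
        = ((K : ℝ) ^ 2 + 1) * (Good (1 / 10) K).card * 3 ^ 0 := by ring
    linarith
  have hsplit : ∑ n ∈ oddS X, φ (vw K n) * MM 0 (n : ℤ)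
      = ∑ n ∈ (oddS X).filter (fun n => vw K n ∈ Good (1 / 10) K),
          φ (vw K n) * MM 0 (n : ℤ)
        + ∑ n ∈ (oddS X).filter (fun n => ¬ vw K n ∈ Good (1 / 10) K),
          φ (vw K n) * MM 0 (n : ℤ) :=
    (Finset.sum_filter_add_sum_filter_not _ _ _).symm
  have hconv : ∑ n ∈ oddS X, φ (vw K n) = ∑ n ∈ oddS X, φ (vw K n) * MM 0 (n : ℤ) :=
    Finset.sum_congr rfl fun n _ => by rw [MM_zero, mul_one]
  rw [hconv, hsplit]
  have hfin : X * (1 / 2 * Q + (5 * Cb + 1100) * (1 / u))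
      = X / 2 * Q + X * (5 * Cb * (1 / u)) + X * (1100 * (1 / u)) := by ring
  rw [hfin]
  linarith

end Pool.Agent.Lib.MP_a247fa_nt.CB
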