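import Pool.Agent.Lib.MP_a247fa_nt.Crit.PS
import Pool.Agent.Lib.MP_a247fa_nt.CB.WCount
import Pool.Agent.Lib.MP_a247fa_nt.CB.LateProb

/-! LateOdd (50 min). Late climbs of the odd numbers: a copy of `climb_rel_ps` (Crit/PS.lean) with `pR L N n` replaced by
`pL J N n`, `L = 1`, `hit Y (L Y) (vw K n)` by `lhit J Y Y (vw K n)`, `hit_count` by `word_count` (`φ = lhit J Y Y`) and
`late_prob` with `Z = Y = δ exp x`: `R = (20 (19/20)^J √Y + 20 (K+1)) / √Y = 20 (19/20)^J + 20 (K+1)/√Y`.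
The private lemmas `ps_halve`, `ps_root_le`, `ps_good`, `ps_split`, `ps_part1`, `ps_err` must be copied (`PsPath` is public).
In `ps_split` one needs `LHit J Y Y (vw K0 n)` from `j ≥ J`, `j ≤ K0`, `Y ≤ n ≤ root j n`: take `v = vw j n` (`vw_length`, `vw_suffix`,
`root_le_MX_scaled` as in `hit_of_rel`). Choose `J` with `10 (19/20)^J ≤ η / 4`, `δ = η / 4`. The constant `C = K1` comes from
`efin`, it does not depend on `η`. -/

set_option autoImplicit false

namespace Pool.Agent.Lib.MP_a247fa_nt.CB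

open Finset Pool.Agent.Lib.MP_e43fce_nt_nat
open Pool.Agent.Lib.MP_a247fa_nt (T cf)
open Pool.Agent.Lib.MP_a247fa_nt.Crit

private theorem lo_halve (s : ℕ) : ∀ r a : ℕ, r ≤ a → s ≤ col^[r] (2 ^ a * s) := by
  intro r
  induction r with
  | zero =>
    intro a _
    exact Nat.le_mul_of_pos_left s (by positivity)
  | succ r ih =>
    intro a ha
    obtain ⟨b, rfl⟩ : ∃ b, a = b + 1 := ⟨a - 1, by omega⟩
    rw [Function.iterate_succ_apply]
    have h : col (2 ^ (b + 1) * s) = 2 ^ b * s := by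
      unfold col
      have h : 2 ^ (b + 1) * s = 2 * (2 ^ b * s) := by ring
      rw [h, if_pos (by omega)]
      omega
    rw [h]
    exact ih b (by omega)

private theorem lo_root_le {n : ℕ} (hn : n % 2 = 1) (j : ℕ) : ∀ t : ℕ, t ≤ j + (vw j n).sum →
    ∃ i ≤ j, root i n ≤ col^[t] n := by
  induction j with
  | zero =>
    intro t ht
    have h0 : t = 0 := by
      simp [vw] at ht
      exact ht
    subst h0
    exact ⟨0, le_rfl, le_rfl⟩
  | succ j ih =>
    intro t ht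
    rcases Nat.lt_or_ge (j + (vw j n).sum) t with h | h
    · refine ⟨j + 1, le_rfl, ?_⟩
      have h1 : (vw (j + 1) n).sum = vl (root j n) + (vw j n).sum := by
        simp only [vw, List.sum_cons]
      rw [h1] at ht
      obtain ⟨r, hr⟩ : ∃ r, t = r + 1 + (j + (vw j n).sum) := ⟨t - 1 - (j + (vw j n).sum), by omega⟩
      rw [hr, Function.iterate_add_apply, vw_col j n hn, Function.iterate_succ_apply]
      have h2 : col (root j n) = 2 ^ vl (root j n) * root (j + 1) n := by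
        show col (root j n) = 2 ^ vl (root j n) * syr (root j n)
        rw [rootMX_syr_mul]
        unfold col
        rw [if_neg (by have := root_odd j n hn; omega)]
      rw [h2]
      exact lo_halve _ r _ (by omega)
    · obtain ⟨i, hi, h1⟩ := ih t h
      exact ⟨i, by omega, h1⟩

private theorem lo_good {n N X : ℕ} (hn : n % 2 = 1) {ε K L Y : ℝ} (hY : 0 < Y) (hL : 0 < L)
    (hYn : Y ≤ n) (h : PsPath ε K N X n) {j : ℕ} (hj1 : L * n ≤ (root j n : ℝ))
    (hj2 : ∀ i ≤ j, N < root i n) :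
    Real.log (L * Y) + j / 6 ≤ Real.log X + (ε * Real.log X + K) := by
  obtain ⟨t, ht, hs⟩ := h
  set s := j + (vw j n).sum with hsd
  have h1 : s < t := by
    by_contra h2
    push Not at h2
    obtain ⟨i, hi, h3⟩ := lo_root_le hn j t h2
    have := hj2 i hi
    omega
  have h2 := hs s h1.le
  rw [hsd, vw_col j n hn, ← hsd] at h2
  have h3 := (abs_le.1 h2).2
  have h4 : Real.log (L * Y) ≤ Real.log (root j n : ℝ) := by
    apply Real.log_le_log (by positivity)
    exact (mul_le_mul_of_nonneg_left hYn hL.le).trans hj1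
  have h5 : (j : ℝ) ≤ ((vw j n).sum : ℝ) := by
    have h6 : (vw j n).length • 1 ≤ (vw j n).sum :=
      List.card_nsmul_le_sum _ 1 (fun a ha => vw_pos j n hn a ha)
    rw [vw_length, smul_eq_mul, mul_one] at h6
    exact_mod_cast h6
  have h6 : (2 * j : ℝ) ≤ (s : ℝ) := by
    rw [hsd, Nat.cast_add]
    linarith
  have h7 : (1 / 4 : ℝ) ≤ Real.log (4 / 3) := by
    have := Real.one_sub_inv_le_log_of_pos (show (0 : ℝ) < 4 / 3 by norm_num)
    norm_num at this
    linarith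
  have h8 : (j : ℝ) / 6 ≤ s * (Real.log (4 / 3) / 3) := by
    have h9 : (0 : ℝ) ≤ j := Nat.cast_nonneg j
    have h10 : (2 * j : ℝ) * (1 / 12) ≤ s * (Real.log (4 / 3) / 3) :=
      mul_le_mul h6 (by linarith) (by norm_num) (Nat.cast_nonneg s)
    linarith
  linarith

/-- the three parts -/
private theorem lo_split {J X N n K0 : ℕ} (hn : n % 2 = 1) {ε K Y : ℝ} (hY : 0 < Y)
    (hK0 : Real.log X + (ε * Real.log X + K) < Real.log Y + (K0 + 1 : ℝ) / 6) :
    pL J N n ≤ (if (n : ℝ) ≤ Y then 1 else 0) + lhit J Y Y (vw K0 n) +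
      (open scoped Classical in if PsPath ε K N X n then 0 else 1) := by
  classical
  have h1 : 0 ≤ lhit J Y Y (vw K0 n) := by unfold lhit; split_ifs <;> norm_num
  by_cases h : ∃ j : ℕ, J ≤ j ∧ n ≤ root j n ∧ ∀ i ≤ j, N < root i n
  · have e1 : pL J N n = 1 := by unfold pL; rw [if_pos h]
    rw [e1]
    by_cases h3 : (n : ℝ) ≤ Y
    · rw [if_pos h3]
      split_ifs <;> linarith
    · rw [if_neg h3]
      by_cases h4 : PsPath ε K N X n
      · obtain ⟨j, hjJ, hj1, hj2⟩ := h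
        have hYn : Y ≤ n := (not_le.1 h3).le
        have hj1' : (1 : ℝ) * n ≤ (root j n : ℝ) := by
          rw [one_mul]
          exact_mod_cast hj1
        have h5 := lo_good hn hY one_pos hYn h4 hj1' hj2
        rw [one_mul] at h5
        have hjK : j ≤ K0 := by
          by_contra h6
          push Not at h6
          have h7 : (K0 + 1 : ℝ) ≤ j := by exact_mod_cast h6
          linarith
        have h6 : LHit J Y Y (vw K0 n) := by
          refine ⟨vw j n, vw_suffix hjK n, by rw [vw_length]; exact hjJ, ?_⟩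
          have h7 := root_le_MX_scaled hY.le hYn j
          have hn' : (0 : ℝ) < n := lt_of_lt_of_le hY hYn
          have h8 : (n : ℝ) * Y ≤ n * MX Y (vw j n) := by
            calc (n : ℝ) * Y = Y * n := mul_comm _ _
              _ ≤ Y * (root j n : ℝ) := mul_le_mul_of_nonneg_left (by exact_mod_cast hj1) hY.le
              _ ≤ _ := h7
          exact le_of_mul_le_mul_left h8 hn'
        have e2 : lhit J Y Y (vw K0 n) = 1 := by unfold lhit; rw [if_pos h6]
        split_ifs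
        linarith
      · rw [if_neg h4]
        linarith
  · have e1 : pL J N n = 0 := by unfold pL; rw [if_neg h]
    rw [e1]
    split_ifs <;> linarith

private theorem lo_part1 {Y : ℝ} (hY : 0 ≤ Y) (X : ℝ) :
    ∑ n ∈ oddS X, (if (n : ℝ) ≤ Y then (1 : ℝ) else 0) ≤ Y := by
  rw [← Finset.sum_filter, Finset.sum_const, nsmul_eq_mul, mul_one]
  have h1 : (oddS X).filter (fun n : ℕ => (n : ℝ) ≤ Y) ⊆ Icc 1 ⌊Y⌋₊ := by
    intro n hn
    rw [mem_filter, oddS, mem_filter, mem_Icc] at hn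
    rw [mem_Icc]
    exact ⟨hn.1.1.1, Nat.le_floor hn.2⟩
  have h2 := Finset.card_le_card h1
  rw [Nat.card_Icc, Nat.add_sub_cancel] at h2
  calc (((oddS X).filter (fun n : ℕ => (n : ℝ) ≤ Y)).card : ℝ) ≤ (⌊Y⌋₊ : ℝ) := by exact_mod_cast h2
    _ ≤ Y := Nat.floor_le hY

/-- all errors tend to zero -/
private theorem lo_err (c1 c2 c3 c4 : ℝ) {δ η : ℝ} (hδ : 0 < δ) (hη : 0 < η) : ∃ x0 : ℝ, ∀ x : ℝ,
    x0 ≤ x → c1 * (x / 2 * Real.exp (-(x / 2))) + c2 * x ^ (-(1 / 4) : ℝ) +
      c3 * Real.exp (-(δ * x)) ≤ η ∧ x + (1 / 100 * x + c4) < x + x / 5 / 6 := by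
  have h1 : Filter.Tendsto (fun x : ℝ => x / 2 * Real.exp (-(x / 2))) Filter.atTop (nhds 0) := by
    have h := Real.tendsto_pow_mul_exp_neg_atTop_nhds_zero 1
    simp only [pow_one] at h
    exact h.comp (Filter.tendsto_id.atTop_div_const (by norm_num : (0 : ℝ) < 2))
  have h2 : Filter.Tendsto (fun x : ℝ => x ^ (-(1 / 4) : ℝ)) Filter.atTop (nhds 0) :=
    tendsto_rpow_neg_atTop (by norm_num)
  have h3 : Filter.Tendsto (fun x : ℝ => Real.exp (-(δ * x))) Filter.atTop (nhds 0) := by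
    apply Real.tendsto_exp_neg_atTop_nhds_zero.comp
    exact Filter.tendsto_id.const_mul_atTop hδ
  have h4 := ((h1.const_mul c1).add (h2.const_mul c2)).add (h3.const_mul c3)
  simp only [mul_zero, add_zero] at h4
  have h5 := h4.eventually (gt_mem_nhds hη)
  obtain ⟨x0, hx0⟩ := Filter.eventually_atTop.1 h5
  refine ⟨max x0 (50 * |c4| + 50), fun x hx => ⟨(hx0 x ((le_max_left _ _).trans hx)).le, ?_⟩⟩
  have h6 : 50 * |c4| + 50 ≤ x := (le_max_right _ _).trans hx
  have h7 := le_abs_self c4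
  have h8 := abs_nonneg c4
  linarith

theorem late_odd {e : ℝ} (he : e < 1 / 20) : ∃ C : ℝ, 0 < C ∧ ∀ η : ℝ, 0 < η → ∃ J : ℕ,
    ∀ N : ℕ, 1 ≤ N → ∃ X0 : ℕ, ∀ X : ℕ, X0 ≤ X →
      ∑ n ∈ oddS (X : ℝ), pL J N n ≤ (η + C * (N : ℝ) ^ (-e)) * X := by
  classical
  obtain ⟨δ1, K1, hδ1, hK1, hP⟩ := Pool.Agent.Lib.MP_e43fce_ps.efin
    (d' := max e (1 / 40)) (lt_max_of_lt_right (by norm_num)) (max_lt he (by norm_num))
    (ε := 1 / 100) (by norm_num)
  obtain ⟨C2, x2, hC2, hx2, h2⟩ := word_count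
  refine ⟨K1, hK1, fun η hη => ?_⟩
  obtain ⟨J, hJ⟩ := exists_pow_lt_of_lt_one (show 0 < η / 40 by positivity)
    (by norm_num : (19 / 20 : ℝ) < 1)
  refine ⟨J, fun N hN => ?_⟩
  set δ := η / 4 with hδ
  have hδpos : 0 < δ := by rw [hδ]; positivity
  have hsδ : 0 < √δ := Real.sqrt_pos.2 hδpos
  obtain ⟨x4, hx4⟩ := lo_err (20 / √δ) C2 K1 (K1 - Real.log δ) hδ1 (half_pos hη)
  set x5 := max (max x2 100) x4 with hx5
  obtain ⟨X0, hX0⟩ := exists_nat_ge (Real.exp x5)
  refine ⟨X0, ?_⟩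
  intro X hXX
  have hX : Real.exp x5 ≤ (X : ℝ) := hX0.trans (by exact_mod_cast hXX)
  have hXpos : (0 : ℝ) < X := lt_of_lt_of_le (Real.exp_pos _) hX
  have hX1 : 1 ≤ X := by exact_mod_cast hXpos
  obtain ⟨x, hxX⟩ : ∃ x, (X : ℝ) = Real.exp x := ⟨Real.log X, (Real.exp_log hXpos).symm⟩
  have hlogX : Real.log X = x := by rw [hxX, Real.log_exp]
  have hx : x5 ≤ x := by
    rw [hxX] at hX
    exact Real.exp_le_exp.1 hX
  have hxx2 : x2 ≤ x := ((le_max_left _ _).trans (le_max_left _ _)).trans hx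
  have hx100 : 100 ≤ x := ((le_max_right _ _).trans (le_max_left _ _)).trans hx
  have hxx4 : x4 ≤ x := (le_max_right _ _).trans hx
  have hxpos : 0 < x := by linarith
  set K := ⌊x / 5⌋₊ with hK
  have hK2 : (K : ℝ) ≤ x / 5 := Nat.floor_le (by positivity)
  have hK1' : x / 5 < (K : ℝ) + 1 := by
    have := Nat.lt_floor_add_one (x / 5)
    rwa [← hK] at this
  set Y := δ * Real.exp x with hY
  have hYpos : 0 < Y := by rw [hY]; positivity
  have hsY : 0 < √Y := Real.sqrt_pos.2 hYpos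
  obtain ⟨hgl, hgl2⟩ := hx4 x hxx4
  have hsp : Real.log X + (1 / 100 * Real.log X + K1) < Real.log Y + ((K : ℝ) + 1) / 6 := by
    have h5 : Real.log Y = Real.log δ + x := by
      rw [hY, Real.log_mul hδpos.ne' (Real.exp_pos x).ne', Real.log_exp]
    rw [hlogX, h5]
    linarith
  have p1 := lo_part1 hYpos.le (Real.exp x)
  have p2 := h2 x hxx2 K (by linarith) (by linarith) (fun w => lhit J Y Y w)
    (fun w => by
      show 0 ≤ lhit J Y Y w ∧ lhit J Y Y w ≤ 1
      unfold lhit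
      split_ifs <;> norm_num) _ (late_prob J (3 * K) K hYpos.le hYpos)
  have p3 : ∑ n ∈ oddS (X : ℝ), (if PsPath (1 / 100) K1 N X n then (0 : ℝ) else 1) ≤
      K1 * ((N : ℝ) ^ (-e) + Real.exp (-(δ1 * x))) * X := by
    have h5 : ∑ n ∈ oddS (X : ℝ), (if PsPath (1 / 100) K1 N X n then (0 : ℝ) else 1) =
        (((oddS (X : ℝ)).filter (fun n => ¬ PsPath (1 / 100) K1 N X n)).card : ℝ) := by
      rw [Finset.card_filter]
      push_cast
      refine Finset.sum_congr rfl (fun n _ => ?_)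
      split_ifs <;> simp_all
    rw [h5]
    have h6 := hP N X hN hX1 ((oddS (X : ℝ)).filter (fun n => ¬ PsPath (1 / 100) K1 N X n)) (by
      intro n hn
      rw [mem_filter, oddS, mem_filter, mem_Icc, Nat.floor_natCast] at hn
      exact ⟨hn.1.1.1, hn.1.1.2, hn.2⟩)
    refine h6.trans ?_
    apply mul_le_mul_of_nonneg_right _ hXpos.le
    apply mul_le_mul_of_nonneg_left _ hK1.le
    apply add_le_add
    · apply Real.rpow_le_rpow_of_exponent_le (by exact_mod_cast hN)
      have := le_max_left e (1 / 40)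
      linarith
    · rw [hxX, ← Real.exp_mul]
      apply le_of_eq
      congr 1
      ring
  have hsplit : ∑ n ∈ oddS (X : ℝ), pL J N n ≤
      ∑ n ∈ oddS (X : ℝ), (if (n : ℝ) ≤ Y then (1 : ℝ) else 0) +
      ∑ n ∈ oddS (X : ℝ), lhit J Y Y (vw K n) +
      ∑ n ∈ oddS (X : ℝ), (if PsPath (1 / 100) K1 N X n then (0 : ℝ) else 1) := by
    rw [← Finset.sum_add_distrib, ← Finset.sum_add_distrib]
    refine Finset.sum_le_sum (fun n hn => ?_)
    have hodd : n % 2 = 1 := by
      rw [oddS, mem_filter] at hn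
      exact hn.2
    have := lo_split (J := J) (X := X) (N := N) (n := n) hodd hYpos hsp
    refine this.trans (le_of_eq ?_)
    congr 1
  have hE := Real.exp_pos x
  -- second part
  have q2 : 1 / 2 * ((20 * (19 / 20) ^ J * √Y + 20 * (K + 1)) / √Y) ≤
      η / 4 + 20 / √δ * (x / 2 * Real.exp (-(x / 2))) := by
    have a1 : 1 / 2 * ((20 * (19 / 20) ^ J * √Y + 20 * (K + 1)) / √Y) =
        10 * (19 / 20) ^ J + 10 * ((K : ℝ) + 1) / √Y := by
      field_simp
      ring
    have a0 : √Y = √δ * Real.exp (x / 2) := by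
      rw [hY, Real.sqrt_mul hδpos.le, Real.exp_half]
    have a2 : 10 * ((K : ℝ) + 1) / √Y = 20 / √δ * ((K + 1) / 2 * Real.exp (-(x / 2))) := by
      rw [a0, Real.exp_neg]
      field_simp
      ring
    rw [a1, a2]
    have a3 : ((K : ℝ) + 1) / 2 ≤ x / 2 := by linarith
    have a4 : (10 : ℝ) * (19 / 20) ^ J ≤ η / 4 := by linarith
    have a5 : 20 / √δ * ((K + 1) / 2 * Real.exp (-(x / 2))) ≤
        20 / √δ * (x / 2 * Real.exp (-(x / 2))) := by
      gcongr
    linarith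
  rw [hxX] at hsplit p3 ⊢
  have fin : Y + Real.exp x * (1 / 2 * ((20 * (19 / 20) ^ J * √Y + 20 * (K + 1)) / √Y) +
      C2 * x ^ (-(1 / 4) : ℝ)) +
      K1 * ((N : ℝ) ^ (-e) + Real.exp (-(δ1 * x))) * Real.exp x ≤
      (η + K1 * (N : ℝ) ^ (-e)) * Real.exp x := by
    have b1 : Y + Real.exp x * (1 / 2 * ((20 * (19 / 20) ^ J * √Y + 20 * (K + 1)) / √Y) +
        C2 * x ^ (-(1 / 4) : ℝ)) +
        K1 * ((N : ℝ) ^ (-e) + Real.exp (-(δ1 * x))) * Real.exp x =
        Real.exp x * (δ + 1 / 2 * ((20 * (19 / 20) ^ J * √Y + 20 * (K + 1)) / √Y) +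
        C2 * x ^ (-(1 / 4) : ℝ) +
        K1 * ((N : ℝ) ^ (-e) + Real.exp (-(δ1 * x)))) := by
      generalize 1 / 2 * ((20 * (19 / 20) ^ J * √Y + 20 * ((K : ℝ) + 1)) / √Y) = q
      rw [hY]; ring
    rw [b1, mul_comm (η + K1 * (N : ℝ) ^ (-e))]
    refine mul_le_mul_of_nonneg_left ?_ hE.le
    have b3 : δ = η / 4 := hδ
    linarith
  linarith

end Pool.Agent.Lib.MP_a247fa_nt.CB
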