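import Pool.Agent.Lib.MP_a247fa_nt.Crit.TRoot
import Pool.Agent.Lib.MP_a247fa_nt.CB.Defs

/-! LateT (30 min). From a late climb of the `T`-orbit of an odd `n` to a late climb of its odd iterates.

Copy the private lemma `T_state` of Crit/TRoot.lean with one more conclusion: for odd `n` and all `k` there is `j` with
(`T^[k] n = root j n` and `2^k T^[k] n ≤ 4^j n`) or (`2^b T^[k] n = 3 root j n + 1` for some `1 ≤ b ≤ vl (root j n)` and
`2^k T^[k] n ≤ 4^(j+1) n`), and all `root i n`, `i ≤ j`, are values `T^[i'] n`, `i' ≤ k`. (Step: at an odd value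
`2^(k+1) T^[k+1] n = 3 * 2^k T^[k] n + 2^k ≤ 4 * 2^k T^[k] n` since `T^[k] n ≥ 1`; at an even value `2^(k+1) T^[k+1] n = 2^k T^[k] n`.)
Then: if `n < T^[k] n` and `2 J + 2 ≤ k` then `4^(J+1) n ≤ 2^k n < 2^k T^[k] n ≤ 4^(j+1) n`, so `J ≤ j`; and
`root j n ≥ T^[k] n / 2 > n` (second case: `2 T^[k] n ≤ 3 root j n + 1 ≤ 4 root j n`). -/

set_option autoImplicit false

namespace Pool.Agent.Lib.MP_a247fa_nt.CB

open Pool.Agent.Lib.MP_e43fce_nt_nat
open Pool.Agent.Lib.MP_a247fa_nt (T)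
open Pool.Agent.Lib.MP_a247fa_nt.Crit

private theorem syr_mul'' (n : ℕ) : 2 ^ vl n * syr n = 3 * n + 1 := by
  unfold syr vl
  exact Nat.mul_div_cancel' pow_padicValNat_dvd

private theorem vl_pos'' (n : ℕ) (hn : n % 2 = 1) : 1 ≤ vl n := by
  unfold vl
  exact one_le_padicValNat_of_dvd (by omega) (by omega)

private theorem odd_step {a k m r n : ℕ} (hm : m = r) (hr : r % 2 = 1)
    (h : 2 ^ k * m ≤ 4 ^ a * n) : 2 ^ 1 * T m = 3 * r + 1 ∧ 2 ^ (k + 1) * T m ≤ 4 ^ (a + 1) * n := by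
  subst hm
  have h1 : 2 * T m = 3 * m + 1 := by
    unfold T
    rw [if_neg (by omega)]
    omega
  refine ⟨by rw [pow_one]; exact h1, ?_⟩
  calc 2 ^ (k + 1) * T m = 2 ^ k * (2 * T m) := by ring
    _ = 2 ^ k * (3 * m + 1) := by rw [h1]
    _ ≤ 2 ^ k * (4 * m) := Nat.mul_le_mul_left _ (by omega)
    _ = 4 * (2 ^ k * m) := by ring
    _ ≤ 4 * (4 ^ a * n) := Nat.mul_le_mul_left _ h
    _ = 4 ^ (a + 1) * n := by ring

private theorem T_state' {n : ℕ} (hn : n % 2 = 1) (k : ℕ) : ∃ j : ℕ,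
    ((T^[k] n = root j n ∧ 2 ^ k * T^[k] n ≤ 4 ^ j * n) ∨ ∃ b : ℕ, 1 ≤ b ∧ b ≤ vl (root j n) ∧
      2 ^ b * T^[k] n = 3 * root j n + 1 ∧ 2 ^ k * T^[k] n ≤ 4 ^ (j + 1) * n) ∧
      ∀ i ≤ j, ∃ i' ≤ k, T^[i'] n = root i n := by
  induction k with
  | zero =>
    refine ⟨0, Or.inl ⟨rfl, le_refl _⟩, ?_⟩
    intro i hi
    exact ⟨0, le_refl _, by rw [Nat.le_zero.mp hi]; rfl⟩
  | succ k ih =>
    obtain ⟨j, hj, hv⟩ := ih
    have hv' : ∀ i ≤ j, ∃ i' ≤ k + 1, T^[i'] n = root i n := by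
      intro i hi
      obtain ⟨i', h1, h2⟩ := hv i hi
      exact ⟨i', by omega, h2⟩
    rcases hj with ⟨hj, hs⟩ | ⟨b, hb1, hb2, hb3, hs⟩
    · have h1 := odd_step hj (root_odd j n hn) hs
      refine ⟨j, Or.inr ⟨1, le_refl _, vl_pos'' _ (root_odd j n hn), ?_, ?_⟩, hv'⟩
      · rw [Function.iterate_succ_apply']
        exact h1.1
      · rw [Function.iterate_succ_apply']
        exact h1.2
    · rcases Nat.lt_or_ge b (vl (root j n)) with hlt | hge
      · have hd := syr_mul'' (root j n)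
        have h1 : vl (root j n) = b + ((vl (root j n) - b - 1) + 1) := by omega
        rw [← hb3, h1, pow_add, pow_succ] at hd
        have hd2 : 2 ^ b * (2 * (2 ^ (vl (root j n) - b - 1) * syr (root j n))) =
            2 ^ b * T^[k] n := by rw [← hd]; ring
        have hd3 := Nat.eq_of_mul_eq_mul_left (by positivity : 0 < 2 ^ b) hd2
        have hT : T (T^[k] n) = 2 ^ (vl (root j n) - b - 1) * syr (root j n) := by
          unfold T at *
          rw [if_pos (by omega), ← hd3]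
          omega
        have hT2 : 2 * T (T^[k] n) = T^[k] n := by rw [hT]; exact hd3
        refine ⟨j, Or.inr ⟨b + 1, by omega, hlt, ?_, ?_⟩, hv'⟩
        · rw [Function.iterate_succ_apply', ← hb3]
          calc 2 ^ (b + 1) * T (T^[k] n) = 2 ^ b * (2 * T (T^[k] n)) := by ring
            _ = 2 ^ b * T^[k] n := by rw [hT2]
        · rw [Function.iterate_succ_apply']
          calc 2 ^ (k + 1) * T (T^[k] n) = 2 ^ k * (2 * T (T^[k] n)) := by ring
            _ = 2 ^ k * T^[k] n := by rw [hT2]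
            _ ≤ 4 ^ (j + 1) * n := hs
      · have hbe : b = vl (root j n) := by omega
        have hr : T^[k] n = root (j + 1) n := by
          rw [hbe, ← syr_mul'' (root j n)] at hb3
          exact Nat.eq_of_mul_eq_mul_left (by positivity) hb3
        have h1 := odd_step hr (root_odd (j + 1) n hn) hs
        refine ⟨j + 1, Or.inr ⟨1, le_refl _, vl_pos'' _ (root_odd (j + 1) n hn), ?_, ?_⟩, ?_⟩
        · rw [Function.iterate_succ_apply']
          exact h1.1
        · rw [Function.iterate_succ_apply']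
          exact h1.2
        · intro i hi
          rcases Nat.lt_or_ge i (j + 1) with h | h
          · exact hv' i (by omega)
          · have : i = j + 1 := by omega
            subst this
            exact ⟨k, by omega, hr⟩

private theorem exp_lt {n k a t : ℕ} (hn : 1 ≤ n) (h1 : n < t) (h2 : 2 ^ k * t ≤ 4 ^ a * n) :
    k < 2 * a := by
  have h3 : 2 ^ k * n < 4 ^ a * n :=
    lt_of_lt_of_le (Nat.mul_lt_mul_of_pos_left h1 (by positivity)) h2
  have h4 : 2 ^ k < 4 ^ a := Nat.lt_of_mul_lt_mul_right h3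
  have h5 : (4 : ℕ) ^ a = 2 ^ (2 * a) := by
    rw [pow_mul]; norm_num
  rw [h5] at h4
  exact (Nat.pow_lt_pow_iff_right (by norm_num)).mp h4

theorem late_T {n N J k : ℕ} (hn : n % 2 = 1) (hk : 2 * J + 2 ≤ k) (hT : 2 * n < T^[k] n)
    (hN : ∀ i ≤ k, N < T^[i] n) : ∃ j : ℕ, J ≤ j ∧ n ≤ root j n ∧ ∀ i ≤ j, N < root i n := by
  obtain ⟨j, hj, hv⟩ := T_state' hn k
  have hn1 : 1 ≤ n := by omega
  refine ⟨j, ?_, ?_, ?_⟩
  · rcases hj with ⟨_, hs⟩ | ⟨b, _, _, _, hs⟩
    · have := exp_lt hn1 (by omega : n < T^[k] n) hs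
      omega
    · have := exp_lt hn1 (by omega : n < T^[k] n) hs
      omega
  · rcases hj with ⟨h, _⟩ | ⟨b, hb1, _, hb3, _⟩
    · omega
    · have h1 : 2 ^ 1 ≤ 2 ^ b := Nat.pow_le_pow_right (by norm_num) hb1
      have h2 : 2 ^ 1 * T^[k] n ≤ 2 ^ b * T^[k] n := Nat.mul_le_mul_right _ h1
      rw [hb3, pow_one] at h2
      omega
  · intro i hi
    obtain ⟨i', hi', he⟩ := hv i hi
    rw [← he]
    exact hN i' hi'

end Pool.Agent.Lib.MP_a247fa_nt.CB
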