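import Pool.Agent.Lib.MP_a247fa_nt.Crit.PS
import Pool.Agent.Lib.MP_a247fa_nt.CB.LateOdd
import Pool.Agent.Lib.MP_a247fa_nt.CB.LateT

/-! LateEven (50 min). Late climbs of the even numbers.

`m = 2^a n`, `n` odd, `a ≥ 1`; as in `climb_even_ps` (Crit/PS.lean; copy the private `ps_cnt_ind`, `ps_ind_unit`, `ps_dyadic_le`).
Take `A` with `1 / 2^A ≤ η / 2` (the `m` with `a ≥ A` have density at most `1 / 2^A`), `J0` from `late_odd` for `η / 2`,
`J = 2 J0 + 2 + A`. For `1 ≤ a < A`: if `k ≥ J`, `5/2 m < T^[k] m` and `N < T^[i] m` for `i ≤ k`, then `T^[a] m = n` (`T_pow_mul`),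
`T^[k] m = T^[k-a] n`, `2 n < T^[k-a] n`, `k - a ≥ 2 J0 + 2`, so by `late_T` `pL J0 N n = 1`. So the sum over `m = 2^a n ≤ X` is at most
`∑ n ∈ oddS (X / 2^a), pL J0 N n ≤ (η/2 + C N^(-e)) X / 2^a`, and `∑_{a ≥ 1} 1/2^a ≤ 1`. -/

set_option autoImplicit false

namespace Pool.Agent.Lib.MP_a247fa_nt.CB

open Finset Pool.Agent.Lib.MP_e43fce_nt_nat
open Pool.Agent.Lib.MP_a247fa_nt (T cf)
open Pool.Agent.Lib.MP_a247fa_nt.Crit

private theorem le_cnt_ind (E : Set ℕ) (X : ℕ) : cnt E X = ∑ n ∈ Icc 1 X, ind E n := by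
  classical
  rw [cnt_filter E X ((Icc 1 X).filter (fun n => n ∈ E)) (by
    intro n; simp only [Finset.mem_filter, Finset.mem_Icc]; tauto), Finset.card_filter]
  push_cast
  refine Finset.sum_congr rfl (fun n _ => ?_)
  unfold ind
  split_ifs <;> rfl

private theorem le_ind_unit (E : Set ℕ) : Unit01 (ind E) := by
  intro n
  unfold ind
  split <;> norm_num

private theorem le_dyadic (J : ℕ) : ∀ (q : ℕ → ℝ), Unit01 q → ∀ X : ℕ, ∑ n ∈ Icc 1 X, q n ≤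
    ∑ a ∈ range J, ∑ m ∈ (Icc 1 (X / 2 ^ a)).filter (fun n => n % 2 = 1), q (2 ^ a * m)
      + (X : ℝ) / 2 ^ J := by
  induction J with
  | zero =>
    intro q hq X
    simp only [range_zero, sum_empty, pow_zero, div_one, zero_add]
    calc ∑ n ∈ Icc 1 X, q n ≤ ∑ n ∈ Icc 1 X, (1 : ℝ) := Finset.sum_le_sum (fun n _ => (hq n).2)
      _ = X := by simp
  | succ J ih =>
    intro q hq X
    rw [sum_even_odd q X, Finset.sum_range_succ']
    have h1 := ih (fun m => q (2 * m)) (fun n => hq _) (X / 2)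
    have h2 : ∀ a : ℕ, X / 2 / 2 ^ a = X / 2 ^ (a + 1) := by
      intro a
      rw [Nat.div_div_eq_div_mul, pow_succ, mul_comm]
    have h3 : ∀ a m : ℕ, 2 * (2 ^ a * m) = 2 ^ (a + 1) * m := by
      intro a m
      ring
    simp only [h2, h3] at h1
    have h4 : ((X / 2 : ℕ) : ℝ) / 2 ^ J ≤ (X : ℝ) / 2 ^ (J + 1) := by
      have h5 : ((X / 2 : ℕ) : ℝ) ≤ (X : ℝ) / 2 := by exact_mod_cast Nat.cast_div_le
      calc ((X / 2 : ℕ) : ℝ) / 2 ^ J ≤ ((X : ℝ) / 2) / 2 ^ J := by gcongr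
        _ = (X : ℝ) / 2 ^ (J + 1) := by
          rw [pow_succ]
          field_simp
    simp only [pow_zero, Nat.div_one, one_mul]
    linarith

private theorem le_geom (B : ℝ) (J : ℕ) :
    ∑ a ∈ range (J + 1), (if a = 0 then (0 : ℝ) else B / 2 ^ a) = B * (1 - 1 / 2 ^ J) := by
  induction J with
  | zero => simp
  | succ J ih =>
    rw [Finset.sum_range_succ, ih, if_neg (by omega), pow_succ]
    field_simp
    ring

/-- a late climb of `2^a n` is a late climb of the odd iterates of `n` -/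
private theorem le_pt {J0 A N a n : ℕ} (ha : a < A) (hn : n % 2 = 1) {k : ℕ} (hk : 2 * J0 + 2 + A ≤ k)
    (h1 : (5 / 2 : ℝ) * ((2 ^ a * n : ℕ) : ℝ) < ((T^[k] (2 ^ a * n) : ℕ) : ℝ))
    (h2 : ∀ i ≤ k, N < T^[i] (2 ^ a * n)) : pL J0 N n = 1 := by
  have hT : ∀ i, T^[i + a] (2 ^ a * n) = T^[i] n := by
    intro i
    rw [Function.iterate_add_apply, T_pow_mul a n le_rfl]
    simp
  have hka : k = (k - a) + a := by omega
  rw [hka, hT] at h1
  have h3 : 2 * n < T^[k - a] n := by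
    have h4 : n ≤ 2 ^ a * n := Nat.le_mul_of_pos_left n (by positivity)
    have h5 : (n : ℝ) ≤ ((2 ^ a * n : ℕ) : ℝ) := by exact_mod_cast h4
    have h6 : (0 : ℝ) ≤ n := Nat.cast_nonneg n
    have h7 : (2 : ℝ) * n < ((T^[k - a] n : ℕ) : ℝ) := by linarith
    exact_mod_cast h7
  obtain ⟨j, hj1, hj2, hj3⟩ := late_T (N := N) (J := J0) (k := k - a) hn (by omega) h3 (by
    intro i hi
    have := h2 (i + a) (by omega)
    rwa [hT] at this)
  unfold pL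
  rw [if_pos ⟨j, hj1, hj2, hj3⟩]

private theorem le_pL_nonneg (J N n : ℕ) : 0 ≤ pL J N n := by
  unfold pL
  split_ifs <;> norm_num

theorem late_even {e : ℝ} (he : e < 1 / 20) : ∃ C : ℝ, 0 < C ∧ ∀ η : ℝ, 0 < η → ∃ J : ℕ,
    ∀ N : ℕ, 1 ≤ N → ∃ X0 : ℕ, ∀ X : ℕ, X0 ≤ X →
      cnt {m : ℕ | m % 2 = 0 ∧ ∃ k : ℕ, J ≤ k ∧ (5 / 2 : ℝ) * (m : ℝ) < ((T^[k] m : ℕ) : ℝ) ∧
        ∀ i ≤ k, N < T^[i] m} X ≤ (η + C * (N : ℝ) ^ (-e)) * X := by
  classical
  obtain ⟨C, hC, h⟩ := late_odd he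
  refine ⟨C, hC, fun η hη => ?_⟩
  obtain ⟨J0, h⟩ := h (η / 2) (half_pos hη)
  obtain ⟨A, hA⟩ : ∃ A : ℕ, 1 / (2 : ℝ) ^ (A + 1) ≤ η / 2 := by
    obtain ⟨A, hA⟩ := exists_pow_lt_of_lt_one (half_pos hη) (by norm_num : (1 / 2 : ℝ) < 1)
    refine ⟨A, ?_⟩
    have h1 : (1 / (2 : ℝ)) ^ (A + 1) ≤ (1 / 2) ^ A :=
      pow_le_pow_of_le_one (by norm_num) (by norm_num) (Nat.le_succ A)
    rw [one_div_pow] at h1
    linarith
  refine ⟨2 * J0 + 2 + (A + 1), fun N hN => ?_⟩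
  obtain ⟨X1, hX1⟩ := h N hN
  refine ⟨2 ^ A * X1, fun X hX => ?_⟩
  have hX0 : (0 : ℝ) ≤ X := Nat.cast_nonneg _
  set E : Set ℕ := {m : ℕ | m % 2 = 0 ∧ ∃ k : ℕ, 2 * J0 + 2 + (A + 1) ≤ k ∧
    (5 / 2 : ℝ) * (m : ℝ) < ((T^[k] m : ℕ) : ℝ) ∧ ∀ i ≤ k, N < T^[i] m} with hE
  set B : ℝ := η / 2 + C * (N : ℝ) ^ (-e) with hB
  have hNe : 0 ≤ (N : ℝ) ^ (-e) := Real.rpow_nonneg (Nat.cast_nonneg N) _
  have hB0 : 0 ≤ B := by positivity
  have h1 := le_dyadic (A + 1) (ind E) (le_ind_unit E) X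
  rw [← le_cnt_ind] at h1
  have hterm : ∀ a ∈ range (A + 1),
      ∑ m ∈ (Icc 1 (X / 2 ^ a)).filter (fun n => n % 2 = 1), ind E (2 ^ a * m) ≤
        (if a = 0 then (0 : ℝ) else B / 2 ^ a) * X := by
    intro a ha
    rw [Finset.mem_range] at ha
    rcases Nat.eq_zero_or_pos a with h0 | h0
    · subst h0
      rw [if_pos rfl, zero_mul]
      apply le_of_eq
      apply Finset.sum_eq_zero
      intro m hm
      rw [Finset.mem_filter] at hm
      unfold ind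
      rw [if_neg]
      rintro ⟨hm0, _⟩
      rw [pow_zero, one_mul] at hm0
      omega
    · rw [if_neg (by omega)]
      have hYa : X1 ≤ X / 2 ^ a := by
        rw [Nat.le_div_iff_mul_le (by positivity)]
        calc X1 * 2 ^ a ≤ X1 * 2 ^ A :=
              Nat.mul_le_mul le_rfl (Nat.pow_le_pow_right (by norm_num) (by omega))
          _ = 2 ^ A * X1 := by ring
          _ ≤ X := hX
      have h3 := hX1 (X / 2 ^ a) hYa
      have h4 : ∑ m ∈ (Icc 1 (X / 2 ^ a)).filter (fun n => n % 2 = 1), ind E (2 ^ a * m) ≤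
          ∑ n ∈ oddS ((X / 2 ^ a : ℕ) : ℝ), pL J0 N n := by
        unfold oddS
        rw [Nat.floor_natCast]
        refine Finset.sum_le_sum fun n hn => ?_
        rw [Finset.mem_filter] at hn
        unfold ind
        by_cases hin : 2 ^ a * n ∈ E
        · rw [if_pos hin]
          obtain ⟨_, k, hk, hk1, hk2⟩ := hin
          exact (le_pt ha hn.2 hk hk1 hk2).ge
        · rw [if_neg hin]
          exact le_pL_nonneg J0 N n
      have h5 : ((X / 2 ^ a : ℕ) : ℝ) ≤ (X : ℝ) / 2 ^ a := by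
        have := Nat.cast_div_le (α := ℝ) (m := X) (n := 2 ^ a)
        push_cast at this
        exact this
      calc ∑ m ∈ (Icc 1 (X / 2 ^ a)).filter (fun n => n % 2 = 1), ind E (2 ^ a * m)
          ≤ B * ((X / 2 ^ a : ℕ) : ℝ) := h4.trans h3
        _ ≤ B * ((X : ℝ) / 2 ^ a) := mul_le_mul_of_nonneg_left h5 hB0
        _ = B / 2 ^ a * X := by ring
  have h6 := Finset.sum_le_sum hterm
  rw [← Finset.sum_mul, le_geom] at h6
  have h7 : B * (1 - 1 / 2 ^ A) ≤ B := by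
    have h9 : 0 ≤ B * (1 / 2 ^ A) := by positivity
    nlinarith
  have h8 : (X : ℝ) / 2 ^ (A + 1) ≤ η / 2 * X := by
    calc (X : ℝ) / 2 ^ (A + 1) = 1 / (2 : ℝ) ^ (A + 1) * X := by ring
      _ ≤ η / 2 * X := mul_le_mul_of_nonneg_right hA hX0
  have h9 := mul_le_mul_of_nonneg_right h7 hX0
  calc cnt E X ≤ B * X + η / 2 * X := by linarith
    _ = (η + C * (N : ℝ) ^ (-e)) * X := by
        rw [hB]
        ring

end Pool.Agent.Lib.MP_a247fa_nt.CB
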