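import Pool.Agent.Lib.MP_a247fa_nt.Crit.Left5
import Pool.Agent.Lib.MP_a247fa_nt.CB.Defs

/-! Pot: the potential `pot` is superharmonic for the limit recursion, so the number of dead words of length `J` is at most
`2^J pot v`; with eight expansions at the start value: at most `199/2000 2^J`. -/

set_option autoImplicit false

namespace Pool.Agent.Lib.MP_a247fa_nt.CB

open Pool.Agent.Lib.MP_a247fa_nt (T cf dcf)

private theorem pot_zero {v : ℝ} (h : 0 ≤ v) : pot v = 0 := by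
  unfold pot
  rw [if_neg (by linarith), if_neg (by linarith), if_neg (by linarith)]

private theorem pot_nonneg (v : ℝ) : 0 ≤ pot v := by
  unfold pot
  split_ifs
  · norm_num
  · norm_num
  · positivity
  · norm_num

private theorem pot_le_one (v : ℝ) : pot v ≤ 1 := by
  unfold pot
  split_ifs with h1 h2 h3
  · norm_num
  · norm_num
  · have h4 : √(-v) ≤ 1 / 2 := by
      rw [Real.sqrt_le_iff]
      constructor
      · norm_num
      · push Not at h2
        linarith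
    linarith
  · norm_num

/-- `pot (-u) ≤ 0.5002` -/
private theorem pot_half {u : ℝ} (h : u ≤ 679 / 1000) : pot (-u) ≤ 5002 / 10000 := by
  unfold pot
  rw [if_neg (by linarith)]
  split_ifs with h2 h3
  · norm_num
  · push Not at h2
    have h4 : √(- -u) ≤ 47011 / 100000 := by
      rw [Real.sqrt_le_iff]
      constructor
      · norm_num
      · norm_num
        linarith
    linarith
  · norm_num

private theorem pot_sqrt {u : ℝ} (_h0 : 0 ≤ u) (h : u ≤ 679 / 1000) : pot (-u) ≤ 1064 / 1000 * √u := by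
  unfold pot
  rw [if_neg (by linarith)]
  split_ifs with h2 h3
  · have h4 : 47 / 100 ≤ √u := by
      apply Real.le_sqrt_of_sq_le
      linarith
    linarith
  · rw [neg_neg]
  · positivity

private theorem odd_eq (u : ℝ) : stepV true (-u) = -(9 / 4 * u + 3 * Real.pi ^ 2 / 8 * u ^ 2) := by
  simp only [stepV]; ring

private theorem even_eq (u : ℝ) : stepV false (-u) = -(u / 4 - Real.pi ^ 2 / 8 * u ^ 2) := by
  simp only [stepV]; ring

private theorem pot_super {u : ℝ} (hu : 0 < u) (h : u ≤ 679 / 1000) :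
    pot (stepV true (-u)) + pot (stepV false (-u)) ≤ 2 * pot (-u) := by
  have hq1 := Pool.Agent.Lib.MP_a247fa_nt.pi_sq_gt
  have hq2 := Pool.Agent.Lib.MP_a247fa_nt.pi_sq_lt
  rw [odd_eq, even_eq]
  set q := Real.pi ^ 2 with hq
  by_cases h1 : 221 / 1000 < u
  · have e : pot (-u) = 1 / 2 := by
      unfold pot
      rw [if_neg (by linarith), if_pos (by linarith)]
    rw [e, pot_zero (v := -(u / 4 - q / 8 * u ^ 2)) (by nlinarith)]
    have := pot_le_one (-(9 / 4 * u + 3 * q / 8 * u ^ 2))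
    linarith
  · push Not at h1
    have e : pot (-u) = 1064 / 1000 * √u := by
      unfold pot
      rw [if_neg (by linarith), if_neg (by linarith), if_pos (by linarith), neg_neg]
    rw [e]
    set s := √u with hs
    have hs0 : 0 ≤ s := Real.sqrt_nonneg u
    have hss : s ^ 2 = u := Real.sq_sqrt hu.le
    have hO : 9 / 4 * u + 3 * q / 8 * u ^ 2 ≤ 679 / 1000 := by nlinarith [sq_nonneg u]
    by_cases h2 : 866 / 10000 < u
    · have h3 := pot_half hO
      have hs1 : 2942 / 10000 ≤ s := by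
        apply Real.le_sqrt_of_sq_le
        linarith
      rcases le_or_gt (u / 4 - q / 8 * u ^ 2) 0 with h4 | h4
      · rw [pot_zero (v := -(u / 4 - q / 8 * u ^ 2)) (by linarith)]
        linarith
      · have h5 := pot_sqrt h4.le (show u / 4 - q / 8 * u ^ 2 ≤ 679 / 1000 by nlinarith [sq_nonneg u])
        have h6 : √(u / 4 - q / 8 * u ^ 2) ≤ 2 * s - 470115 / 1000000 := by
          rw [Real.sqrt_le_iff]
          constructor
          · linarith
          · have h7 : u / 4 - q / 8 * u ^ 2 ≤ u / 4 - 9869 / 8000 * u ^ 2 := by nlinarith [sq_nonneg u]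
            refine h7.trans ?_
            have h8 : u ^ 2 ≥ (866 / 10000) ^ 2 := by nlinarith
            have h9 : 0 ≤ (s - 2942 / 10000) ^ 2 := sq_nonneg _
            rw [← hss] at h8 ⊢
            nlinarith
        linarith
    · push Not at h2
      have h3 := pot_sqrt (show 0 ≤ 9 / 4 * u + 3 * q / 8 * u ^ 2 by positivity) hO
      have hE : 0 ≤ u / 4 - q / 8 * u ^ 2 := by nlinarith
      have h5 := pot_sqrt hE (show u / 4 - q / 8 * u ^ 2 ≤ 679 / 1000 by nlinarith [sq_nonneg u])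
      have h6 : √(9 / 4 * u + 3 * q / 8 * u ^ 2) ≤ 3 / 2 * s * (1 + q * u / 12) := by
        rw [Real.sqrt_le_iff]
        constructor
        · positivity
        · have e2 : (3 / 2 * s * (1 + q * u / 12)) ^ 2 = 9 / 4 * s ^ 2 * (1 + q * u / 12) ^ 2 := by ring
          rw [e2, hss]
          have h7 : 0 ≤ u * (q * u) ^ 2 := by positivity
          nlinarith
      have h7 : √(u / 4 - q / 8 * u ^ 2) ≤ 1 / 2 * s * (1 - q * u / 4) := by
        rw [Real.sqrt_le_iff]
        constructor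
        · have : 0 ≤ 1 - q * u / 4 := by nlinarith
          positivity
        · have e2 : (1 / 2 * s * (1 - q * u / 4)) ^ 2 = 1 / 4 * s ^ 2 * (1 - q * u / 4) ^ 2 := by ring
          rw [e2, hss]
          have h8 : 0 ≤ u * (q * u) ^ 2 := by positivity
          nlinarith
      nlinarith

private theorem nD_le (J : ℕ) : ∀ v : ℝ, nD J v ≤ 2 ^ J * pot v := by
  induction J with
  | zero =>
    intro v
    unfold nD
    split_ifs with h
    · unfold pot
      rw [if_pos h]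
      norm_num
    · have := pot_nonneg v
      simpa using this
  | succ J ih =>
    intro v
    unfold nD
    split_ifs with h1 h2
    · unfold pot
      rw [if_pos h1, mul_one]
    · push Not at h1
      have h3 := pot_super (u := -v) (by linarith) (by linarith)
      rw [neg_neg] at h3
      have h4 := ih (stepV true v)
      have h5 := ih (stepV false v)
      have h6 : (0 : ℝ) < 2 ^ J := by positivity
      have h7 := mul_le_mul_of_nonneg_left h3 h6.le
      rw [pow_succ]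
      linarith
    · have := pot_nonneg v
      positivity

private theorem bd_leaf {J : ℕ} {u x : ℝ} (h0 : 0 ≤ u) (h : u ≤ 679 / 1000) (hx0 : 0 ≤ x)
    (hx : u ≤ (x / (1064 / 1000)) ^ 2) : nD J (-u) ≤ 2 ^ J * x := by
  refine (nD_le J _).trans (mul_le_mul_of_nonneg_left ?_ (by positivity))
  refine (pot_sqrt h0 h).trans ?_
  have h1 : √u ≤ x / (1064 / 1000) := by
    rw [Real.sqrt_le_iff]
    exact ⟨by positivity, hx⟩
  linarith

private theorem bd_half {J : ℕ} {u : ℝ} (h : u ≤ 679 / 1000) : nD J (-u) ≤ 2 ^ J * (5002 / 10000) :=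
  (nD_le J _).trans (mul_le_mul_of_nonneg_left (pot_half h) (by positivity))

private theorem bd_step {J : ℕ} {u x y : ℝ} (h0 : 0 < u) (h : u ≤ 679 / 1000)
    (hx : nD J (-(9 / 4 * u + 3 * Real.pi ^ 2 / 8 * u ^ 2)) ≤ 2 ^ J * x)
    (hy : nD J (-(u / 4 - Real.pi ^ 2 / 8 * u ^ 2)) ≤ 2 ^ J * y) :
    nD (J + 1) (-u) ≤ 2 ^ (J + 1) * ((x + y) / 2) := by
  have e : nD (J + 1) (-u) = nD J (stepV true (-u)) + nD J (stepV false (-u)) := by
    conv_lhs => unfold nD
    rw [if_neg (by linarith), if_pos (by linarith)]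
  have e2 : (2 : ℝ) ^ (J + 1) = 2 ^ J * 2 := pow_succ 2 J
  rw [e, odd_eq, even_eq, e2]
  linarith

private theorem odd_bd {q u a b : ℝ} (hq1 : 9.869 < q) (hq2 : q < 9.87) (ha0 : 0 ≤ a) (ha : a ≤ u) (hb : u ≤ b) :
    9 / 4 * a + 3.7008 * a ^ 2 ≤ 9 / 4 * u + 3 * q / 8 * u ^ 2 ∧
    9 / 4 * u + 3 * q / 8 * u ^ 2 ≤ 9 / 4 * b + 3.7013 * b ^ 2 := by
  have h1 : a ^ 2 ≤ u ^ 2 := pow_le_pow_left₀ ha0 ha 2
  have h2 : u ^ 2 ≤ b ^ 2 := pow_le_pow_left₀ (ha0.trans ha) hb 2
  have h3 : 0 ≤ a ^ 2 := sq_nonneg a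
  constructor <;> nlinarith

private theorem even_up {q u b : ℝ} (hq1 : 9.869 < q) (h0 : 0 ≤ u) (hb : u ≤ b) (hb1 : b ≤ 1 / 10) :
    u / 4 - q / 8 * u ^ 2 ≤ b / 4 - 1.2336 * b ^ 2 := by
  have h1 : u / 4 - q / 8 * u ^ 2 ≤ u / 4 - 1.2336 * u ^ 2 := by nlinarith [sq_nonneg u]
  nlinarith

private theorem even_up' {q u a : ℝ} (hq1 : 9.869 < q) (ha : a ≤ u) (ha1 : 11 / 100 ≤ a) :
    u / 4 - q / 8 * u ^ 2 ≤ a / 4 - 1.2336 * a ^ 2 := by
  have h1 : u / 4 - q / 8 * u ^ 2 ≤ u / 4 - 1.2336 * u ^ 2 := by nlinarith [sq_nonneg u]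
  nlinarith

private theorem even_lo {q u a : ℝ} (hq2 : q < 9.87) (ha0 : 0 ≤ a) (ha : a ≤ u) (hu : u ≤ 1 / 10) :
    a / 4 - 1.2338 * a ^ 2 ≤ u / 4 - q / 8 * u ^ 2 := by
  have h1 : u / 4 - 1.2338 * u ^ 2 ≤ u / 4 - q / 8 * u ^ 2 := by nlinarith [sq_nonneg u]
  nlinarith

theorem nD_start (J : ℕ) : nD (J + 7) (-(1 / (8 * Real.pi ^ 2))) ≤ 199 / 2000 * 2 ^ (J + 7) := by
  have hq1 := Pool.Agent.Lib.MP_a247fa_nt.pi_sq_gt
  have hq2 := Pool.Agent.Lib.MP_a247fa_nt.pi_sq_lt
  set q := Real.pi ^ 2 with hq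
  have hq0 : 0 < q := by linarith
  obtain ⟨u0, hu0⟩ : ∃ u, u = 1 / (8 * q) := ⟨_, rfl⟩
  have a0 : 0.012664 ≤ u0 := by rw [hu0, le_div_iff₀ (by positivity)]; linarith
  have b0 : u0 ≤ 0.012667 := by rw [hu0, div_le_iff₀ (by positivity)]; linarith
  obtain ⟨u1, hu1⟩ : ∃ u, u = 9 / 4 * u0 + 3 * q / 8 * u0 ^ 2 := ⟨_, rfl⟩
  obtain ⟨a1, b1⟩ := odd_bd hq1 hq2 (by norm_num) a0 b0
  rw [← hu1] at a1 b1
  norm_num at a1 b1
  obtain ⟨u2, hu2⟩ : ∃ u, u = 9 / 4 * u1 + 3 * q / 8 * u1 ^ 2 := ⟨_, rfl⟩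
  obtain ⟨a2, b2⟩ := odd_bd hq1 hq2 (by norm_num) a1 b1
  rw [← hu2] at a2 b2
  norm_num at a2 b2
  obtain ⟨u3, hu3⟩ : ∃ u, u = 9 / 4 * u2 + 3 * q / 8 * u2 ^ 2 := ⟨_, rfl⟩
  obtain ⟨a3, b3⟩ := odd_bd hq1 hq2 (by norm_num) a2 b2
  rw [← hu3] at a3 b3
  norm_num at a3 b3
  have c3 : 0.1716 ≤ u3 := by norm_num; linarith
  have d3 : u3 ≤ 0.1719 := by norm_num; linarith
  have c2 : 0.06857 ≤ u2 := by norm_num; linarith
  have d2 : u2 ≤ 0.0686 := by norm_num; linarith
  have c1 : 0.02908 ≤ u1 := by norm_num; linarith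
  have d1 : u1 ≤ 0.0291 := by norm_num; linarith
  -- the word 110
  obtain ⟨w0, hw0⟩ : ∃ u, u = u2 / 4 - q / 8 * u2 ^ 2 := ⟨_, rfl⟩
  have e0 : 0.01133 ≤ w0 := by
    have := even_lo hq2 (by norm_num) c2 (by linarith)
    rw [← hw0] at this
    norm_num at this ⊢
    linarith
  have f0 : w0 ≤ 0.01135 := by
    have := even_up hq1 (by linarith) d2 (by norm_num)
    rw [← hw0] at this
    norm_num at this ⊢
    linarith
  obtain ⟨w1, hw1⟩ : ∃ u, u = 9 / 4 * w0 + 3 * q / 8 * w0 ^ 2 := ⟨_, rfl⟩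
  obtain ⟨e1, f1⟩ := odd_bd hq1 hq2 (by norm_num) e0 f0
  rw [← hw1] at e1 f1
  norm_num at e1 f1
  have g1 : 0.02596 ≤ w1 := by norm_num; linarith
  have h1 : w1 ≤ 0.02602 := by norm_num; linarith
  obtain ⟨w2, hw2⟩ : ∃ u, u = 9 / 4 * w1 + 3 * q / 8 * w1 ^ 2 := ⟨_, rfl⟩
  obtain ⟨e2, f2⟩ := odd_bd hq1 hq2 (by norm_num) g1 h1
  rw [← hw2] at e2 f2
  norm_num at e2 f2
  have g2 : 0.0608 ≤ w2 := by norm_num; linarith
  have h2 : w2 ≤ 0.0611 := by norm_num; linarith
  obtain ⟨w3, hw3⟩ : ∃ u, u = 9 / 4 * w2 + 3 * q / 8 * w2 ^ 2 := ⟨_, rfl⟩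
  obtain ⟨e3, f3⟩ := odd_bd hq1 hq2 (by norm_num) g2 h2
  rw [← hw3] at e3 f3
  norm_num at e3 f3
  have g3 : 0.150 ≤ w3 := by norm_num; linarith
  have h3 : w3 ≤ 0.152 := by norm_num; linarith
  -- the leaves
  have L0 : nD (J + 6) (-(u0 / 4 - q / 8 * u0 ^ 2)) ≤ 2 ^ (J + 6) * 0.0581 := by
    have k1 := even_up hq1 (by linarith) b0 (by norm_num)
    have k2 := even_lo hq2 (by norm_num) a0 (by linarith)
    norm_num at k1 k2
    exact bd_leaf (by linarith) (by linarith) (by norm_num) (by norm_num; linarith)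
  have L10 : nD (J + 5) (-(u1 / 4 - q / 8 * u1 ^ 2)) ≤ 2 ^ (J + 5) * 0.0841 := by
    have k1 := even_up hq1 (by linarith) d1 (by norm_num)
    have k2 := even_lo hq2 (by norm_num) c1 (by linarith)
    norm_num at k1 k2
    exact bd_leaf (by linarith) (by linarith) (by norm_num) (by norm_num; linarith)
  have L1110 : nD (J + 3) (-(u3 / 4 - q / 8 * u3 ^ 2)) ≤ 2 ^ (J + 3) * 0.0866 := by
    have k1 := even_up' hq1 c3 (by norm_num)
    have k2 : 0 ≤ u3 / 4 - q / 8 * u3 ^ 2 := by nlinarith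
    norm_num at k1
    exact bd_leaf k2 (by linarith) (by norm_num) (by norm_num; linarith)
  have L1111 : nD (J + 3) (-(9 / 4 * u3 + 3 * q / 8 * u3 ^ 2)) ≤ 2 ^ (J + 3) * (5002 / 10000) := by
    obtain ⟨-, k1⟩ := odd_bd hq1 hq2 (by norm_num) c3 d3
    norm_num at k1
    exact bd_half (by linarith)
  have L1100 : nD (J + 3) (-(w0 / 4 - q / 8 * w0 ^ 2)) ≤ 2 ^ (J + 3) * 0.0552 := by
    have k1 := even_up hq1 (by linarith) f0 (by norm_num)
    have k2 := even_lo hq2 (by norm_num) e0 (by linarith)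
    norm_num at k1 k2
    exact bd_leaf (by linarith) (by linarith) (by norm_num) (by norm_num; linarith)
  have L11010 : nD (J + 2) (-(w1 / 4 - q / 8 * w1 ^ 2)) ≤ 2 ^ (J + 2) * 0.0803 := by
    have k1 := even_up hq1 (by linarith) h1 (by norm_num)
    have k2 := even_lo hq2 (by norm_num) g1 (by linarith)
    norm_num at k1 k2
    exact bd_leaf (by linarith) (by linarith) (by norm_num) (by norm_num; linarith)
  have L110110 : nD (J + 1) (-(w2 / 4 - q / 8 * w2 ^ 2)) ≤ 2 ^ (J + 1) * 0.1101 := by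
    have k1 := even_up hq1 (by linarith) h2 (by norm_num)
    have k2 := even_lo hq2 (by norm_num) g2 (by linarith)
    norm_num at k1 k2
    exact bd_leaf (by linarith) (by linarith) (by norm_num) (by norm_num; linarith)
  have L1101110 : nD J (-(w3 / 4 - q / 8 * w3 ^ 2)) ≤ 2 ^ J * 0.106 := by
    have k1 := even_up' hq1 g3 (by norm_num)
    have k2 : 0 ≤ w3 / 4 - q / 8 * w3 ^ 2 := by nlinarith
    norm_num at k1
    exact bd_leaf k2 (by linarith) (by norm_num) (by norm_num; linarith)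
  have L1101111 : nD J (-(9 / 4 * w3 + 3 * q / 8 * w3 ^ 2)) ≤ 2 ^ J * (5002 / 10000) := by
    obtain ⟨-, k1⟩ := odd_bd hq1 hq2 (by norm_num) g3 h3
    norm_num at k1
    exact bd_half (by linarith)
  -- up the tree
  have M110111 := bd_step (J := J) (u := w3) (by linarith) (by linarith) L1101111 L1101110
  rw [hw3] at M110111
  have M11011 := bd_step (J := J + 1) (u := w2) (by linarith) (by linarith) M110111 L110110
  rw [hw2] at M11011
  have M1101 := bd_step (J := J + 2) (u := w1) (by linarith) (by linarith) M11011 L11010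
  rw [hw1] at M1101
  have M110 := bd_step (J := J + 3) (u := w0) (by linarith) (by linarith) M1101 L1100
  rw [hw0] at M110
  have M111 := bd_step (J := J + 3) (u := u3) (by linarith) (by linarith) L1111 L1110
  rw [hu3] at M111
  have M11 := bd_step (J := J + 4) (u := u2) (by linarith) (by linarith) M111 M110
  rw [hu2] at M11
  have M1 := bd_step (J := J + 5) (u := u1) (by linarith) (by linarith) M11 L10
  rw [hu1] at M1
  have M := bd_step (J := J + 6) (u := u0) (by linarith) (by linarith) M1 L0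
  rw [hu0] at M
  refine M.trans ?_
  have h4 : (0 : ℝ) < 2 ^ (J + 7) := by positivity
  have e : (2 : ℝ) ^ (J + 6 + 1) = 2 ^ (J + 7) := rfl
  rw [e]
  nlinarith

end Pool.Agent.Lib.MP_a247fa_nt.CB
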