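import Pool.Agent.Lib.MP_a247fa_nt.Crit.TRoot
import Pool.Agent.Lib.MP_a247fa_nt.CB.Defs

/-! Words (40 min). Parity words and residue classes.

(1) If `pw J m = pw J m'` then `m ≡ m' [MOD 2^J]` (induction on `J`, `m`, `m'` general: same parity, `T m ≡ T m' mod 2^J`;
even: `m = 2 T m`; odd: `3 m + 1 = 2 T m`, cancel `3`, which is coprime to `2^(J+1)`).
(2) Hence the even `m ≤ X` with `pw J (T m) = w` lie in one class mod `2^(J+1)`: at most `X / 2^(J+1) + 1` of them.
(3) `dead_count` by induction on `J`? NO: by induction on the word structure it is easier to sum: let `W J` be the finset of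
all lists of length `J` (`W (J+1)` = disjoint union of the images of `W J` under `cons true`, `cons false`); then
`∑ w ∈ W J, [Dead v w] = nD J v` (induction on `J`, `v` general; if `v < -0.679` all `2^(J+1)` words are dead; if `0 ≤ v` none),
`pw J (T m) ∈ W J`, and the set of the theorem is the union over the dead `w ∈ W J` of the classes in (2). -/

set_option autoImplicit false

namespace Pool.Agent.Lib.MP_a247fa_nt.CB

open Finset Pool.Agent.Lib.MP_e43fce_nt_nat
open Pool.Agent.Lib.MP_a247fa_nt (T)
open Pool.Agent.Lib.MP_a247fa_nt.Crit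

private theorem two_mul_T_even {m : ℕ} (h : m % 2 = 0) : 2 * T m = m := by
  rw [T, if_pos h]
  omega

private theorem two_mul_T_odd {m : ℕ} (h : ¬ m % 2 = 0) : 2 * T m = 3 * m + 1 := by
  rw [T, if_neg h]
  omega

private theorem pw_modEq (J : ℕ) : ∀ m m' : ℕ, pw J m = pw J m' → m ≡ m' [MOD 2 ^ J] := by
  induction J with
  | zero =>
    intro m m' _
    rw [pow_zero]
    exact Nat.modEq_one
  | succ J ih =>
    intro m m' h
    simp only [pw, List.cons.injEq] at h
    obtain ⟨h1, h2⟩ := h
    have h3 := Nat.ModEq.mul_left' 2 (ih _ _ h2)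
    have hp : m % 2 = m' % 2 := by
      rcases Nat.mod_two_eq_zero_or_one m with h | h <;> rcases Nat.mod_two_eq_zero_or_one m' with h' | h' <;>
        simp_all
    rw [pow_succ, mul_comm]
    by_cases hm : m % 2 = 0
    · rwa [two_mul_T_even hm, two_mul_T_even (hp ▸ hm)] at h3
    · rw [two_mul_T_odd hm, two_mul_T_odd (hp ▸ hm)] at h3
      have h4 : 3 * m ≡ 3 * m' [MOD 2 * 2 ^ J] := Nat.ModEq.add_right_cancel' 1 h3
      refine Nat.ModEq.cancel_left_of_coprime ?_ h4
      have h5 : Nat.Coprime (2 ^ (J + 1)) 3 := Nat.Coprime.pow_left _ (by norm_num)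
      rwa [pow_succ, mul_comm] at h5

private theorem class_card (s : Finset ℕ) (X M : ℕ) (hs : ∀ m ∈ s, m ≤ X)
    (hc : ∀ m ∈ s, ∀ m' ∈ s, m ≡ m' [MOD M]) : (s.card : ℝ) ≤ (X : ℝ) / M + 1 := by
  have h1 : s.card ≤ (Finset.range (X / M + 1)).card := by
    refine Finset.card_le_card_of_injOn (fun m => m / M) ?_ ?_
    · intro m hm
      have h2 : m / M ≤ X / M := Nat.div_le_div_right (hs m hm)
      simp only [Finset.coe_range, Set.mem_Iio]
      omega
    · intro m hm m' hm' he
      simp only at he
      have h2 : m % M = m' % M := hc m hm m' hm'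
      rw [← Nat.div_add_mod m M, ← Nat.div_add_mod m' M, he, h2]
  rw [Finset.card_range] at h1
  have h2 : (s.card : ℝ) ≤ ((X / M : ℕ) : ℝ) + 1 := by exact_mod_cast h1
  have h3 : ((X / M : ℕ) : ℝ) ≤ (X : ℝ) / M := Nat.cast_div_le
  linarith

/-- all words of length `J` -/
private def Wd : ℕ → Finset (List Bool)
  | 0 => {[]}
  | J + 1 => (Wd J).image (List.cons true) ∪ (Wd J).image (List.cons false)

private theorem pw_mem (J : ℕ) : ∀ m : ℕ, pw J m ∈ Wd J := by
  induction J with
  | zero => intro m; simp [pw, Wd]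
  | succ J ih =>
    intro m
    simp only [pw, Wd, Finset.mem_union, Finset.mem_image]
    cases h : (m % 2 == 1)
    · exact Or.inr ⟨_, ih _, rfl⟩
    · exact Or.inl ⟨_, ih _, rfl⟩

open Classical in
private theorem card_filter_Wd (J : ℕ) (P : List Bool → Prop) :
    ((Wd (J + 1)).filter P).card = ((Wd J).filter fun w => P (true :: w)).card +
      ((Wd J).filter fun w => P (false :: w)).card := by
  have hinj : ∀ b : Bool, Function.Injective (List.cons b) := fun b x y h => (List.cons.inj h).2
  rw [Wd, Finset.filter_union, Finset.card_union_of_disjoint, Finset.filter_image, Finset.filter_image,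
    Finset.card_image_of_injective _ (hinj true), Finset.card_image_of_injective _ (hinj false)]
  rw [Finset.disjoint_left]
  intro x hx hy
  rw [Finset.mem_filter, Finset.mem_image] at hx hy
  obtain ⟨⟨a, -, rfl⟩, -⟩ := hx
  obtain ⟨⟨b, -, hb⟩, -⟩ := hy
  exact absurd (List.cons.inj hb).1 (by decide)

private theorem card_Wd (J : ℕ) : (Wd J).card = 2 ^ J := by
  induction J with
  | zero => simp [Wd]
  | succ J ih =>
    have h := card_filter_Wd J fun _ => True
    simp only [Finset.filter_true] at h
    rw [h, ih, pow_succ, mul_two]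

open Classical in
private theorem card_dead (J : ℕ) : ∀ v : ℝ, (((Wd J).filter fun w => Dead v w).card : ℝ) = nD J v := by
  induction J with
  | zero =>
    intro v
    by_cases hv : v < -(679 / 1000)
    · simp [Wd, Dead, nD, hv, Finset.filter_singleton]
    · simp [Wd, Dead, nD, hv, Finset.filter_singleton]
  | succ J ih =>
    intro v
    by_cases hv : v < -(679 / 1000)
    · have h1 : ((Wd (J + 1)).filter fun w => Dead v w).card = 2 ^ (J + 1) := by
        rw [card_filter_Wd]
        have h2 : ∀ b : Bool, ((Wd J).filter fun w => Dead v (b :: w)).card = 2 ^ J := by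
          intro b
          rw [← card_Wd J]
          congr 1
          rw [Finset.filter_eq_self]
          intro w _
          simp [Dead, hv]
        rw [h2, h2, pow_succ, mul_two]
      rw [h1, nD, if_pos hv]
      push_cast
      ring
    · by_cases h0 : v < 0
      · rw [card_filter_Wd, nD, if_neg hv, if_pos h0, ← ih, ← ih]
        push_cast
        have h2 : ∀ b : Bool, ((Wd J).filter fun w => Dead v (b :: w)) = (Wd J).filter fun w => Dead (stepV b v) w := by
          intro b
          refine Finset.filter_congr fun w _ => ?_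
          simp [Dead, hv, h0]
        rw [h2, h2]
      · rw [card_filter_Wd, nD, if_neg hv, if_neg h0]
        have h2 : ∀ b : Bool, ((Wd J).filter fun w => Dead v (b :: w)) = ∅ := by
          intro b
          rw [Finset.filter_eq_empty_iff]
          intro w _
          simp [Dead, hv, h0]
        rw [h2, h2]
        simp

theorem dead_count (J : ℕ) (v : ℝ) (X : ℕ) :
    cnt {m : ℕ | m % 2 = 0 ∧ Dead v (pw J (T m))} X ≤ nD J v * ((X : ℝ) / 2 ^ (J + 1) + 1) := by
  classical
  rw [← card_dead J v, cnt]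
  have hset : ({m : ℕ | m % 2 = 0 ∧ Dead v (pw J (T m))} ∩ Set.Icc 1 X) =
      (((Finset.Icc 1 X).filter fun m => m % 2 = 0 ∧ Dead v (pw J (T m)) : Finset ℕ) : Set ℕ) := by
    ext m
    simp only [Set.mem_inter_iff, Set.mem_ofPred_eq, Set.mem_Icc, Finset.coe_filter, Finset.mem_Icc]
    tauto
  rw [hset, Set.ncard_coe_finset]
  have hsub : ((Finset.Icc 1 X).filter fun m => m % 2 = 0 ∧ Dead v (pw J (T m))) ⊆
      ((Wd J).filter fun w => Dead v w).biUnion
        fun w => (Finset.Icc 1 X).filter fun m => m % 2 = 0 ∧ pw J (T m) = w := by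
    intro m hm
    rw [Finset.mem_filter] at hm
    rw [Finset.mem_biUnion]
    exact ⟨pw J (T m), Finset.mem_filter.2 ⟨pw_mem J _, hm.2.2⟩, Finset.mem_filter.2 ⟨hm.1, hm.2.1, rfl⟩⟩
  have h1 : ∀ w, (((Finset.Icc 1 X).filter fun m => m % 2 = 0 ∧ pw J (T m) = w).card : ℝ) ≤
      (X : ℝ) / 2 ^ (J + 1) + 1 := by
    intro w
    have h2 := class_card ((Finset.Icc 1 X).filter fun m => m % 2 = 0 ∧ pw J (T m) = w) X (2 ^ (J + 1))
      (fun m hm => (Finset.mem_Icc.1 (Finset.mem_filter.1 hm).1).2) (fun m hm m' hm' => by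
        obtain ⟨-, h3, h4⟩ := Finset.mem_filter.1 hm
        obtain ⟨-, h3', h4'⟩ := Finset.mem_filter.1 hm'
        have h5 := Nat.ModEq.mul_left' 2 (pw_modEq J _ _ (h4.trans h4'.symm))
        rw [two_mul_T_even h3, two_mul_T_even h3'] at h5
        rwa [pow_succ, mul_comm])
    push_cast at h2
    exact h2
  calc (((Finset.Icc 1 X).filter fun m => m % 2 = 0 ∧ Dead v (pw J (T m))).card : ℝ)
      ≤ ((((Wd J).filter fun w => Dead v w).biUnion
        fun w => (Finset.Icc 1 X).filter fun m => m % 2 = 0 ∧ pw J (T m) = w).card : ℝ) := by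
        exact_mod_cast Finset.card_le_card hsub
    _ ≤ ∑ w ∈ (Wd J).filter fun w => Dead v w,
        (((Finset.Icc 1 X).filter fun m => m % 2 = 0 ∧ pw J (T m) = w).card : ℝ) := by
        exact_mod_cast Finset.card_biUnion_le
    _ ≤ ∑ w ∈ (Wd J).filter fun w => Dead v w, ((X : ℝ) / 2 ^ (J + 1) + 1) :=
        Finset.sum_le_sum fun w _ => h1 w
    _ = (((Wd J).filter fun w => Dead v w).card : ℝ) * ((X : ℝ) / 2 ^ (J + 1) + 1) := by
        rw [Finset.sum_const, nsmul_eq_mul]

end Pool.Agent.Lib.MP_a247fa_nt.CB
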