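import Pool.Agent.Lib.MP_a247fa_nt.Crit.PS
import Pool.Agent.Lib.MP_a247fa_nt.CB.CaseS
import Pool.Agent.Lib.MP_a247fa_nt.CB.Pot
import Pool.Agent.Lib.MP_a247fa_nt.CB.Words
import Pool.Agent.Lib.MP_a247fa_nt.CB.LateEven

/-! FinS: the even integers whose critical orbit does not shadow the `T`-orbit until this has come down to `N`
have upper density at most `1/20 + C N^(-e)`. -/

set_option autoImplicit false

namespace Pool.Agent.Lib.MP_a247fa_nt.CB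

open Finset Pool.Agent.Lib.MP_e43fce_nt_nat
open Pool.Agent.Lib.MP_a247fa_nt (T cf dcf T_pos iter_mem_trap)
open Pool.Agent.Lib.MP_a247fa_nt.Crit

/-- the critical orbit shadows the `T`-orbit of `m` until this has come down to `N` -/
def Fol (N m : ℕ) (c : ℝ) : Prop := ∃ k : ℕ, T^[k] m ≤ N ∧ ∀ i ≤ k, Sh (T^[i] m) (cf^[i] c)

private theorem case_cbS {m N l : ℕ} (hm : 100 ≤ m) (hbig : 2 ^ (l + 1) * (N + 1) ≤ m) {c : ℝ}
    (hJ : InJ (3 * (5 / 2 * (m : ℝ)) ^ 2) (T^[l + 1] m) (cf^[l + 1] c))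
    (hS : ∀ i ≤ l + 1, Sh (T^[i] m) (cf^[i] c))
    (h : ¬ Fol N m c) :
    (∀ k : ℕ, N < T^[k] m) ∨
      (∃ k : ℕ, l + 1 ≤ k ∧ (5 / 2 : ℝ) * (m : ℝ) < ((T^[k] m : ℕ) : ℝ) ∧ ∀ i ≤ k, N < T^[i] m) := by
  classical
  by_contra hcon
  rw [not_or] at hcon
  obtain ⟨h1, h2⟩ := hcon
  push Not at h1
  obtain ⟨k0, hk0⟩ := h1
  have hex : ∃ k : ℕ, T^[k] m ≤ N := ⟨k0, hk0⟩
  set k1 := Nat.find hex with hk1
  have h3 : T^[k1] m ≤ N := Nat.find_spec hex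
  have h4 : ∀ i : ℕ, i < k1 → N < T^[i] m := by
    intro i hi
    have := Nat.find_min hex hi
    omega
  exact h ⟨k1, h3, (inj_atS hm hbig hJ hS h3 h4 h2).2⟩

theorem even_fol {e : ℝ} (he : e < 1 / 20) : ∃ C : ℝ, 0 < C ∧ ∀ N : ℕ, 1 ≤ N → ∀ ε : ℝ, 0 < ε →
    ∃ X0 : ℕ, ∀ X : ℕ, X0 ≤ X →
    cnt {m : ℕ | m % 2 = 0 ∧ ∃ c : ℝ, IsCrit m c ∧ ¬ Fol N m c} X
      ≤ (1 / 20 + C * (N : ℝ) ^ (-e) + ε) * X := by
  obtain ⟨C1, hC1, h1⟩ := stay_ps he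
  obtain ⟨C2, hC2, h2⟩ := late_even he
  refine ⟨C1 + C2, by positivity, fun N hN ε hε => ?_⟩
  obtain ⟨J, h3⟩ := h2 ε hε
  obtain ⟨X1, h3⟩ := h3 N hN
  set l : ℕ := J + 7 with hl
  obtain ⟨B1, hB1⟩ := alive_allS l
  set B : ℕ := max (max 100 (2 ^ (l + 1) * (N + 1))) B1 with hB
  obtain ⟨X2, hX2⟩ := exists_nat_ge (4000 * ((B : ℝ) + 2 ^ l))
  refine ⟨max (max X1 X2) 1, fun X hX => ?_⟩
  have hXa : X1 ≤ X := le_trans (le_trans (le_max_left _ _) (le_max_left _ _)) hX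
  have hXb : X2 ≤ X := le_trans (le_trans (le_max_right _ _) (le_max_left _ _)) hX
  have hXc : 1 ≤ X := le_trans (le_max_right _ _) hX
  set S1 : Set ℕ := {m : ℕ | ∀ k : ℕ, N < T^[k] m} with hS1
  set S2 : Set ℕ := {m : ℕ | m % 2 = 0 ∧ ∃ k : ℕ, J ≤ k ∧ (5 / 2 : ℝ) * (m : ℝ) < ((T^[k] m : ℕ) : ℝ) ∧
        ∀ i ≤ k, N < T^[i] m} with hS2
  set S3 : Set ℕ := {m : ℕ | m % 2 = 0 ∧ Dead (-(1 / (8 * Real.pi ^ 2))) (pw l (T m))} with hS3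
  have h4 := cnt_almost (S := {m : ℕ | m % 2 = 0 ∧ ∃ c : ℝ, IsCrit m c ∧ ¬ Fol N m c})
    (S' := (S1 ∪ S2) ∪ S3) (B := B) (by
      rintro m hm ⟨h5, c, hc, h6⟩
      by_cases hd : Dead (-(1 / (8 * Real.pi ^ 2))) (pw l (T m))
      · exact Or.inr ⟨h5, hd⟩
      · left
        have h7 := hB1 m ((le_max_right _ _).trans hm) h5 hd c hc
        rcases case_cbS (N := N) (l := l) (((le_max_left _ _).trans (le_max_left _ _)).trans hm)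
          (((le_max_right _ _).trans (le_max_left _ _)).trans hm) h7.1 h7.2 h6 with h8 | ⟨k, hk, h8⟩
        · exact Or.inl h8
        · exact Or.inr ⟨h5, k, by omega, h8⟩) X
  have h5 := cnt_union_le (S1 ∪ S2) S3 X
  have h6 := cnt_union_le S1 S2 X
  have h7 := h1 N X hN hXc
  have h8 := h3 X hXa
  have h9 := dead_count l (-(1 / (8 * Real.pi ^ 2))) X
  have h10 : (nD l (-(1 / (8 * Real.pi ^ 2)))) * ((X : ℝ) / 2 ^ (l + 1) + 1) ≤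
      199 / 4000 * X + 2 ^ l := by
    have h11 := nD_start J
    rw [← hl] at h11
    have h12 : (0 : ℝ) ≤ (X : ℝ) / 2 ^ (l + 1) + 1 := by positivity
    refine (mul_le_mul_of_nonneg_right h11 h12).trans ?_
    have h13 : 199 / 2000 * (2 : ℝ) ^ l * ((X : ℝ) / 2 ^ (l + 1) + 1) =
        199 / 4000 * X + 199 / 2000 * 2 ^ l := by
      rw [pow_succ]
      field_simp
      ring
    rw [h13]
    have : (0 : ℝ) < 2 ^ l := by positivity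
    linarith
  have h11 : 4000 * ((B : ℝ) + 2 ^ l) ≤ X := hX2.trans (by exact_mod_cast hXb)
  have h12 : cnt {m : ℕ | m % 2 = 0 ∧ ∃ c : ℝ, IsCrit m c ∧ ¬ Fol N m c} X ≤
      (C1 * (N : ℝ) ^ (-e) * X + (ε + C2 * (N : ℝ) ^ (-e)) * X) + (199 / 4000 * X + 2 ^ l) + B := by
    linarith
  refine h12.trans ?_
  have h13 : (1 / 20 + (C1 + C2) * (N : ℝ) ^ (-e) + ε) * X =
      (C1 * (N : ℝ) ^ (-e) * X + (ε + C2 * (N : ℝ) ^ (-e)) * X) + 1 / 20 * X := by ring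
  rw [h13]
  linarith

theorem odd_fol {e : ℝ} (he : e < 1 / 20) : ∃ C : ℝ, 0 < C ∧ ∀ N X : ℕ, 1 ≤ N → 1 ≤ X →
    cnt {m : ℕ | m % 2 = 1 ∧ ∃ c : ℝ, IsCrit m c ∧ ¬ Fol N m c} X
      ≤ C * (N : ℝ) ^ (-e) * X := by
  obtain ⟨C, hC, h⟩ := stay_ps he
  refine ⟨C, hC, fun N X hN hX => ?_⟩
  refine le_trans (cnt_mono ?_) (h N X hN hX)
  rintro m hm _ ⟨h1, c, hc, h2⟩ k
  by_contra h3
  push Not at h3
  exact h2 ⟨k, h3, fun i _ => sh_trap (iter_mem_trap hm (isCrit_odd_trap h1 hc) i).2⟩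

end Pool.Agent.Lib.MP_a247fa_nt.CB
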