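import Pool.Agent.Lib.MP_e43fce_nt_nat.AFinR
import Pool.Agent.Lib.MP_a247fa_nt.Crit.Stay
import Pool.Agent.Lib.MP_a247fa_nt.CB.Defs

/-! OneDens (20 min). The integers which reach `1` have a positive natural density, the same in every residue class.

`fin_almost` (MP_e43fce_nt_nat/AFinR.lean; its statement is that of Results/MP_e43fce_nt/InvariantDensity.lean) with
`E = Pred 1` (the `n` whose orbit under the `3 n + 1`, `n / 2` map contains `1`), `B = 0` (`n ∈ E ↔ C n ∈ E` for all `n`, also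
`n = 1`), `a = 1` for the positivity; `E = {n | ∃ k, T^[k] n = 1}` by `T_reach_iff` (see `dens_odd` in Crit/Stay.lean, which uses
`col`; the map of `fin_almost` is the same function); `K X / (log X)^c ≤ ε X` for large `X`. -/

set_option autoImplicit false

namespace Pool.Agent.Lib.MP_a247fa_nt.CB

open Finset Pool.Agent.Lib.MP_e43fce_nt_nat
open Pool.Agent.Lib.MP_a247fa_nt (T)
open Pool.Agent.Lib.MP_a247fa_nt.Crit

theorem one_density : ∃ d : ℝ, 0 < d ∧ ∀ M : ℕ, 1 ≤ M → ∀ ε : ℝ, 0 < ε → ∃ X0 : ℕ, ∀ X : ℕ, X0 ≤ X →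
    ∀ r : ℕ, |cnt {n : ℕ | n % M = r % M ∧ ∃ k : ℕ, T^[k] n = 1} X - d * X / M| ≤ ε * X := by
  obtain ⟨c, c', d, hc, hc', hpos, hcount⟩ := fin_almost
  have hd : 0 < d Rone := by
    have h1 := hpos 1 one_pos (by norm_num)
    have h2 : (0 : ℝ) < c' / (1 : ℕ) := by
      rw [Nat.cast_one, div_one]
      exact hc'
    exact lt_of_lt_of_le h2 h1
  refine ⟨d Rone, hd, fun M hM ε hε => ?_⟩
  obtain ⟨K, hK⟩ := hcount M 0 hM
  have hinv : {n : ℕ | 0 < n ∧ ¬ (n ∈ Rone ↔ col n ∈ Rone)}.encard ≤ (0 : ℕ) := by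
    have h1 : {n : ℕ | 0 < n ∧ ¬ (n ∈ Rone ↔ col n ∈ Rone)} = ∅ := by
      ext n
      simp only [Set.mem_ofPred_eq, Set.mem_empty_iff_false, iff_false, not_and, not_not]
      intro hn
      exact Rone_inv n hn
    rw [h1, Set.encard_empty]
    exact le_rfl
  have hlim : Filter.Tendsto (fun X : ℕ => K / (Real.log X) ^ c) Filter.atTop (nhds 0) := by
    refine Filter.Tendsto.div_atTop tendsto_const_nhds ?_
    exact (tendsto_rpow_atTop hc).comp (Real.tendsto_log_atTop.comp tendsto_natCast_atTop_atTop)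
  obtain ⟨X0, hX0⟩ := Filter.eventually_atTop.1 (hlim.eventually (gt_mem_nhds hε))
  refine ⟨max X0 2, fun X hX r => ?_⟩
  have h2 := hK Rone hinv X ((le_max_right _ _).trans hX) r
  have h3 := hX0 X ((le_max_left _ _).trans hX)
  have h4 : cnt {n : ℕ | n % M = r % M ∧ ∃ k : ℕ, T^[k] n = 1} X =
      (((Rone ∩ {n | n % M = r % M}) ∩ Set.Icc 1 X).ncard : ℝ) := by
    unfold cnt
    congr 2
    ext n
    simp only [Set.mem_inter_iff, Set.mem_ofPred_eq, Set.mem_Icc]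
    constructor
    · rintro ⟨⟨h5, h6⟩, h7, h8⟩
      exact ⟨⟨(T_reach_iff (by omega)).1 h6, h5⟩, h7, h8⟩
    · rintro ⟨⟨h6, h5⟩, h7, h8⟩
      exact ⟨⟨h5, (T_reach_iff (by omega)).2 h6⟩, h7, h8⟩
  rw [h4]
  refine h2.trans ?_
  have h5 : K * X / (Real.log X) ^ c = K / (Real.log X) ^ c * X := by ring
  rw [h5]
  exact mul_le_mul_of_nonneg_right h3.le (Nat.cast_nonneg X)

end Pool.Agent.Lib.MP_a247fa_nt.CB
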