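import Pool.Agent.Lib.MP_a247fa_nt.Crit.TRoot
import Pool.Agent.Lib.MP_a247fa_nt.CB.Defs

/-! WordsE. `dead_count` (Words.lean, helper14) inside a set `E`: the dead words are contained in `nD J v` residue
classes mod `2^(J+1)`, each of which contains at most `K` elements of `E` up to `X`. Same proof, the class bound
`X / 2^(J+1) + 1` replaced by the hypothesis (an empty class is bounded by `0 ≤ K`, which follows from `cnt ≥ 0`). -/

set_option autoImplicit false

namespace Pool.Agent.Lib.MP_a247fa_nt.CB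

open Finset Pool.Agent.Lib.MP_e43fce_nt_nat
open Pool.Agent.Lib.MP_a247fa_nt (T)
open Pool.Agent.Lib.MP_a247fa_nt.Crit

private theorem two_mul_T_even {m : ℕ} (h : m % 2 = 0) : 2 * T m = m := by
  rw [T, if_pos h]
  omega

private theorem two_mul_T_odd {m : ℕ} (h : ¬ m % 2 = 0) : 2 * T m = 3 * m + 1 := by
  rw [T, if_neg h]
  omega

private theorem pw_modEq (J : ℕ) : ∀ m m' : ℕ, pw J m = pw J m' → m ≡ m' [MOD 2 ^ J] := by
  induction J with
  | zero =>
    intro m m' _
    rw [pow_zero]
    exact Nat.modEq_one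
  | succ J ih =>
    intro m m' h
    simp only [pw, List.cons.injEq] at h
    obtain ⟨h1, h2⟩ := h
    have h3 := Nat.ModEq.mul_left' 2 (ih _ _ h2)
    have hp : m % 2 = m' % 2 := by
      rcases Nat.mod_two_eq_zero_or_one m with h | h <;> rcases Nat.mod_two_eq_zero_or_one m' with h' | h' <;>
        simp_all
    rw [pow_succ, mul_comm]
    by_cases hm : m % 2 = 0
    · rwa [two_mul_T_even hm, two_mul_T_even (hp ▸ hm)] at h3
    · rw [two_mul_T_odd hm, two_mul_T_odd (hp ▸ hm)] at h3
      have h4 : 3 * m ≡ 3 * m' [MOD 2 * 2 ^ J] := Nat.ModEq.add_right_cancel' 1 h3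
      refine Nat.ModEq.cancel_left_of_coprime ?_ h4
      have h5 : Nat.Coprime (2 ^ (J + 1)) 3 := Nat.Coprime.pow_left _ (by norm_num)
      rwa [pow_succ, mul_comm] at h5

/-- all words of length `J` -/
private def Wd : ℕ → Finset (List Bool)
  | 0 => {[]}
  | J + 1 => (Wd J).image (List.cons true) ∪ (Wd J).image (List.cons false)

private theorem pw_mem (J : ℕ) : ∀ m : ℕ, pw J m ∈ Wd J := by
  induction J with
  | zero => intro m; simp [pw, Wd]
  | succ J ih =>
    intro m
    simp only [pw, Wd, Finset.mem_union, Finset.mem_image]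
    cases h : (m % 2 == 1)
    · exact Or.inr ⟨_, ih _, rfl⟩
    · exact Or.inl ⟨_, ih _, rfl⟩

open Classical in
private theorem card_filter_Wd (J : ℕ) (P : List Bool → Prop) :
    ((Wd (J + 1)).filter P).card = ((Wd J).filter fun w => P (true :: w)).card +
      ((Wd J).filter fun w => P (false :: w)).card := by
  have hinj : ∀ b : Bool, Function.Injective (List.cons b) := fun b x y h => (List.cons.inj h).2
  rw [Wd, Finset.filter_union, Finset.card_union_of_disjoint, Finset.filter_image, Finset.filter_image,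
    Finset.card_image_of_injective _ (hinj true), Finset.card_image_of_injective _ (hinj false)]
  rw [Finset.disjoint_left]
  intro x hx hy
  rw [Finset.mem_filter, Finset.mem_image] at hx hy
  obtain ⟨⟨a, -, rfl⟩, -⟩ := hx
  obtain ⟨⟨b, -, hb⟩, -⟩ := hy
  exact absurd (List.cons.inj hb).1 (by decide)

private theorem card_Wd (J : ℕ) : (Wd J).card = 2 ^ J := by
  induction J with
  | zero => simp [Wd]
  | succ J ih =>
    have h := card_filter_Wd J fun _ => True
    simp only [Finset.filter_true] at h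
    rw [h, ih, pow_succ, mul_two]

open Classical in
private theorem card_dead (J : ℕ) : ∀ v : ℝ, (((Wd J).filter fun w => Dead v w).card : ℝ) = nD J v := by
  induction J with
  | zero =>
    intro v
    by_cases hv : v < -(679 / 1000)
    · simp [Wd, Dead, nD, hv, Finset.filter_singleton]
    · simp [Wd, Dead, nD, hv, Finset.filter_singleton]
  | succ J ih =>
    intro v
    by_cases hv : v < -(679 / 1000)
    · have h1 : ((Wd (J + 1)).filter fun w => Dead v w).card = 2 ^ (J + 1) := by
        rw [card_filter_Wd]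
        have h2 : ∀ b : Bool, ((Wd J).filter fun w => Dead v (b :: w)).card = 2 ^ J := by
          intro b
          rw [← card_Wd J]
          congr 1
          rw [Finset.filter_eq_self]
          intro w _
          simp [Dead, hv]
        rw [h2, h2, pow_succ, mul_two]
      rw [h1, nD, if_pos hv]
      push_cast
      ring
    · by_cases h0 : v < 0
      · rw [card_filter_Wd, nD, if_neg hv, if_pos h0, ← ih, ← ih]
        push_cast
        have h2 : ∀ b : Bool, ((Wd J).filter fun w => Dead v (b :: w)) = (Wd J).filter fun w => Dead (stepV b v) w := by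
          intro b
          refine Finset.filter_congr fun w _ => ?_
          simp [Dead, hv, h0]
        rw [h2, h2]
      · rw [card_filter_Wd, nD, if_neg hv, if_neg h0]
        have h2 : ∀ b : Bool, ((Wd J).filter fun w => Dead v (b :: w)) = ∅ := by
          intro b
          rw [Finset.filter_eq_empty_iff]
          intro w _
          simp [Dead, hv, h0]
        rw [h2, h2]
        simp

theorem dead_count_E (J : ℕ) (v : ℝ) (X : ℕ) (E : Set ℕ) (K : ℝ)
    (hK : ∀ r : ℕ, cnt {m : ℕ | m % 2 ^ (J + 1) = r % 2 ^ (J + 1) ∧ m ∈ E} X ≤ K) :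
    cnt {m : ℕ | m % 2 = 0 ∧ Dead v (pw J (T m)) ∧ m ∈ E} X ≤ nD J v * K := by
  classical
  rw [← card_dead J v, cnt]
  have hset : ({m : ℕ | m % 2 = 0 ∧ Dead v (pw J (T m)) ∧ m ∈ E} ∩ Set.Icc 1 X) =
      (((Finset.Icc 1 X).filter fun m => m % 2 = 0 ∧ Dead v (pw J (T m)) ∧ m ∈ E : Finset ℕ) : Set ℕ) := by
    ext m
    simp only [Set.mem_inter_iff, Set.mem_ofPred_eq, Set.mem_Icc, Finset.coe_filter, Finset.mem_Icc]
    tauto
  rw [hset, Set.ncard_coe_finset]
  have hsub : ((Finset.Icc 1 X).filter fun m => m % 2 = 0 ∧ Dead v (pw J (T m)) ∧ m ∈ E) ⊆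
      ((Wd J).filter fun w => Dead v w).biUnion
        fun w => (Finset.Icc 1 X).filter fun m => m % 2 = 0 ∧ pw J (T m) = w ∧ m ∈ E := by
    intro m hm
    rw [Finset.mem_filter] at hm
    rw [Finset.mem_biUnion]
    exact ⟨pw J (T m), Finset.mem_filter.2 ⟨pw_mem J _, hm.2.2.1⟩,
      Finset.mem_filter.2 ⟨hm.1, hm.2.1, rfl, hm.2.2.2⟩⟩
  have h1 : ∀ w, (((Finset.Icc 1 X).filter fun m => m % 2 = 0 ∧ pw J (T m) = w ∧ m ∈ E).card : ℝ) ≤ K := by
    intro w
    rcases Finset.eq_empty_or_nonempty
      ((Finset.Icc 1 X).filter fun m => m % 2 = 0 ∧ pw J (T m) = w ∧ m ∈ E) with h0 | ⟨r, hr⟩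
    · rw [h0, Finset.card_empty, Nat.cast_zero]
      refine le_trans ?_ (hK 0)
      rw [cnt]
      exact Nat.cast_nonneg _
    · refine le_trans ?_ (hK r)
      rw [cnt]
      obtain ⟨-, h3', h4', -⟩ := Finset.mem_filter.1 hr
      rw [← Set.ncard_coe_finset]
      have hfin : ({m : ℕ | m % 2 ^ (J + 1) = r % 2 ^ (J + 1) ∧ m ∈ E} ∩ Set.Icc 1 X).Finite :=
        (Set.finite_Icc 1 X).subset Set.inter_subset_right
      have hle := Set.ncard_le_ncard (s := (((Finset.Icc 1 X).filter fun m =>
        m % 2 = 0 ∧ pw J (T m) = w ∧ m ∈ E : Finset ℕ) : Set ℕ)) (t := {m : ℕ | m % 2 ^ (J + 1) =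
          r % 2 ^ (J + 1) ∧ m ∈ E} ∩ Set.Icc 1 X) (by
        intro m hm
        rw [Finset.mem_coe, Finset.mem_filter] at hm
        obtain ⟨hm1, h3, h4, h6⟩ := hm
        have h5 := Nat.ModEq.mul_left' 2 (pw_modEq J _ _ (h4.trans h4'.symm))
        rw [two_mul_T_even h3, two_mul_T_even h3'] at h5
        refine ⟨⟨?_, h6⟩, Set.mem_Icc.2 (Finset.mem_Icc.1 hm1)⟩
        have h7 : m % (2 * 2 ^ J) = r % (2 * 2 ^ J) := h5
        rwa [pow_succ, mul_comm]) hfin
      exact_mod_cast hle
  calc (((Finset.Icc 1 X).filter fun m => m % 2 = 0 ∧ Dead v (pw J (T m)) ∧ m ∈ E).card : ℝ)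
      ≤ ((((Wd J).filter fun w => Dead v w).biUnion
        fun w => (Finset.Icc 1 X).filter fun m => m % 2 = 0 ∧ pw J (T m) = w ∧ m ∈ E).card : ℝ) := by
        exact_mod_cast Finset.card_le_card hsub
    _ ≤ ∑ w ∈ (Wd J).filter fun w => Dead v w,
        (((Finset.Icc 1 X).filter fun m => m % 2 = 0 ∧ pw J (T m) = w ∧ m ∈ E).card : ℝ) := by
        exact_mod_cast Finset.card_biUnion_le
    _ ≤ ∑ w ∈ (Wd J).filter fun w => Dead v w, K :=
        Finset.sum_le_sum fun w _ => h1 w
    _ = (((Wd J).filter fun w => Dead v w).card : ℝ) * K := by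
        rw [Finset.sum_const, nsmul_eq_mul]

end Pool.Agent.Lib.MP_a247fa_nt.CB
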