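import Pool.Agent.Lib.MP_a247fa_nt.CB.Case
import Pool.Agent.Lib.MP_a247fa_nt.CB.Pot
import Pool.Agent.Lib.MP_a247fa_nt.CB.WordsE
import Pool.Agent.Lib.MP_a247fa_nt.CB.LateEven
import Pool.Agent.Lib.MP_a247fa_nt.CB.OneDens

/-! Reach: the even integers whose critical orbit is attracted by `{1, 2}` have lower density at least `9/20 d`, where `d` is
the natural density of the integers whose `T`-orbit reaches `1`; the odd ones have density `d / 2`. -/

set_option autoImplicit false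

namespace Pool.Agent.Lib.MP_a247fa_nt.CB

open Finset Pool.Agent.Lib.MP_e43fce_nt_nat
open Pool.Agent.Lib.MP_a247fa_nt (T cf dcf T_pos trapI iter_mem_trap)
open Pool.Agent.Lib.MP_a247fa_nt.Crit

theorem toOne_at {N : ℕ} (hN : 200 ≤ N) : ∃ B : ℕ, ∀ m : ℕ, B ≤ m → ∀ (k1 : ℕ) (c : ℝ),
    T^[k1] m ≤ N → (∀ i : ℕ, i < k1 → N < T^[i] m) →
    InJ (3 * (5 / 2 * (m : ℝ)) ^ 2) (T^[k1] m) (cf^[k1] c) → (∃ k : ℕ, T^[k] m = 1) → ToOne c := by
  obtain ⟨ρ, hρ, hrad⟩ := common_radius N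
  obtain ⟨B0, hB0⟩ := exists_nat_gt (N / ρ)
  refine ⟨max (N + 1) B0, fun m hm k1 c h3 h4 hJ hr => ?_⟩
  have hm1 : N + 1 ≤ m := le_trans (le_max_left _ _) hm
  have hm2 : B0 ≤ m := le_trans (le_max_right _ _) hm
  obtain ⟨k, hk⟩ := hr
  have hkk : k1 ≤ k := by
    by_contra h
    push Not at h
    have := h4 k h
    omega
  rcases hJ with hJ | ⟨h7, h8⟩
  · obtain ⟨j, hjk, h1, h2, h5, h6⟩ := last_hundred (by omega) hk
    have hj : k1 ≤ j := by
      by_contra h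
      push Not at h
      have := h4 j h
      omega
    have h9 : cf^[j] c ∈ trapI (T^[j] m) := by
      have h10 := (iter_mem_trap (T_iter_pos' (by omega) k1) hJ (j - k1)).2
      rw [← Function.iterate_add_apply, ← Function.iterate_add_apply] at h10
      have e : j - k1 + k1 = j := by omega
      rwa [e] at h10
    refine toOne_iter (n := j) (trap_hundred h1 h2 h5 ?_ h9)
    intro i hi
    rw [← Function.iterate_add_apply]
    exact h6 (i + j) (by omega)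
  · refine toOne_iter (n := k1) (hrad (T^[k1] m) h3 ⟨k - k1, ?_⟩ _ ?_)
    · rw [← Function.iterate_add_apply]
      have : k - k1 + k1 = k := by omega
      rw [this]
      exact hk
    · have hmR : (N : ℝ) + 1 ≤ m := by exact_mod_cast hm1
      have hmB : (B0 : ℝ) ≤ m := by exact_mod_cast hm2
      have haR : ((T^[k1] m : ℕ) : ℝ) ≤ N := by exact_mod_cast h3
      have ha0 : (0 : ℝ) ≤ ((T^[k1] m : ℕ) : ℝ) := Nat.cast_nonneg _
      have hN0 : (0 : ℝ) ≤ N := Nat.cast_nonneg _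
      set a : ℝ := ((T^[k1] m : ℕ) : ℝ) with ha
      set x : ℝ := cf^[k1] c with hx
      have h9 : (m : ℝ) ≤ 3 * (5 / 2 * (m : ℝ)) ^ 2 - 4 / 3 * a ^ 2 := by
        have : a ^ 2 ≤ (m : ℝ) ^ 2 := pow_le_pow_left₀ ha0 (by linarith) 2
        nlinarith
      have h10 : 0 < a - x := by linarith
      have h11 : (a - x) * m ≤ a := le_trans (mul_le_mul_of_nonneg_left h9 h10.le) h8
      have h12 : (N : ℝ) < ρ * m := by
        have : (N : ℝ) / ρ < m := lt_of_lt_of_le hB0 hmB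
        rw [div_lt_iff₀ hρ] at this
        linarith
      rw [abs_lt]
      constructor
      · have : (a - x) < ρ := by
          by_contra h13
          push Not at h13
          have h14 : ρ * m ≤ (a - x) * m := mul_le_mul_of_nonneg_right h13 (by linarith)
          linarith
        linarith
      · linarith

private theorem rpow_small' {C η : ℝ} (hC : 0 < C) (hη : 0 < η) : ∃ N : ℕ, 200 ≤ N ∧
    C * (N : ℝ) ^ (-(1 / 40) : ℝ) ≤ η := by
  have h1 : Filter.Tendsto (fun N : ℕ => C * (N : ℝ) ^ (-(1 / 40) : ℝ)) Filter.atTop (nhds 0) := by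
    have h3 := (tendsto_rpow_neg_atTop (show (0 : ℝ) < 1 / 40 by norm_num)).comp
      tendsto_natCast_atTop_atTop
    have h4 := h3.const_mul C
    simpa using h4
  have h5 := h1.eventually (ge_mem_nhds hη)
  obtain ⟨N, hN⟩ := (h5.and (Filter.eventually_ge_atTop 200)).exists
  exact ⟨N, hN.2, hN.1⟩

theorem even_dens_cb {d : ℝ} (hd : 0 < d) (hden : ∀ M : ℕ, 1 ≤ M → ∀ ε : ℝ, 0 < ε → ∃ X0 : ℕ, ∀ X : ℕ,
    X0 ≤ X → ∀ r : ℕ, |cnt {n : ℕ | n % M = r % M ∧ ∃ k : ℕ, T^[k] n = 1} X - d * X / M| ≤ ε * X) :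
    ∃ X0 : ℕ, ∀ X : ℕ, X0 ≤ X →
      9 / 20 * d * X ≤ cnt {m : ℕ | m % 2 = 0 ∧ ∃ c : ℝ, IsCrit m c ∧ ToOne c} X := by
  classical
  obtain ⟨C2, hC2, h2⟩ := late_even (show (1 / 40 : ℝ) < 1 / 20 by norm_num)
  obtain ⟨N, hN, hN1⟩ := rpow_small' hC2 (show 0 < d / 40000 by positivity)
  obtain ⟨J, h3⟩ := h2 (d / 40000) (by positivity)
  obtain ⟨X1, h3⟩ := h3 N (by omega)
  set l : ℕ := J + 7 with hl
  obtain ⟨B1, hB1⟩ := alive_all l
  obtain ⟨B2, hB2⟩ := toOne_at hN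
  obtain ⟨X3, h4⟩ := hden 2 (by norm_num) (d / 40000) (by positivity)
  obtain ⟨X4, h5⟩ := hden (2 ^ (l + 1)) Nat.one_le_two_pow (d / 40000 / 2 ^ l) (by positivity)
  set B : ℕ := max (max 100 (2 ^ (l + 1) * (N + 1))) (max B1 B2) with hB
  obtain ⟨X2, hX2⟩ := exists_nat_ge (10000 * (B : ℝ) / d)
  refine ⟨max (max X1 X2) (max X3 X4), fun X hX => ?_⟩
  have hXa : X1 ≤ X := le_trans (le_trans (le_max_left _ _) (le_max_left _ _)) hX
  have hXb : X2 ≤ X := le_trans (le_trans (le_max_right _ _) (le_max_left _ _)) hX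
  have hXc : X3 ≤ X := le_trans (le_trans (le_max_left _ _) (le_max_right _ _)) hX
  have hXd : X4 ≤ X := le_trans (le_trans (le_max_right _ _) (le_max_right _ _)) hX
  set E : Set ℕ := {n : ℕ | ∃ k : ℕ, T^[k] n = 1} with hE
  set S : Set ℕ := {m : ℕ | m % 2 = 0 ∧ ∃ c : ℝ, IsCrit m c ∧ ToOne c} with hS
  set S2 : Set ℕ := {m : ℕ | m % 2 = 0 ∧ ∃ k : ℕ, J ≤ k ∧ (5 / 2 : ℝ) * (m : ℝ) < ((T^[k] m : ℕ) : ℝ) ∧
        ∀ i ≤ k, N < T^[i] m} with hS2
  set S3 : Set ℕ := {m : ℕ | m % 2 = 0 ∧ Dead (-(1 / (8 * Real.pi ^ 2))) (pw l (T m)) ∧ m ∈ E} with hS3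
  have h6 := cnt_almost (S := {n : ℕ | n % 2 = 0 % 2 ∧ ∃ k : ℕ, T^[k] n = 1})
    (S' := (S ∪ S2) ∪ S3) (B := B) (by
      rintro m hm ⟨he, hr⟩
      have he' : m % 2 = 0 := by simpa using he
      by_cases hd : Dead (-(1 / (8 * Real.pi ^ 2))) (pw l (T m))
      · exact Or.inr ⟨he', hd, hr⟩
      · left
        by_cases hs2 : m ∈ S2
        · exact Or.inr hs2
        · left
          have hm100 : 100 ≤ m := ((le_max_left _ _).trans (le_max_left _ _)).trans hm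
          obtain ⟨c, hc, -⟩ := crit_unique m (by omega)
          refine ⟨he', c, hc, ?_⟩
          have h7 := hB1 m (((le_max_left _ _).trans (le_max_right _ _)).trans hm) he' hd c hc
          obtain ⟨k0, hk0⟩ := hr
          have hex : ∃ k : ℕ, T^[k] m ≤ N := ⟨k0, by rw [hk0]; omega⟩
          have h8 : T^[Nat.find hex] m ≤ N := Nat.find_spec hex
          have h9 : ∀ i : ℕ, i < Nat.find hex → N < T^[i] m := by
            intro i hi
            have := Nat.find_min hex hi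
            omega
          refine hB2 m (((le_max_right _ _).trans (le_max_right _ _)).trans hm) (Nat.find hex) c h8 h9
            (inj_at hm100 (((le_max_right _ _).trans (le_max_left _ _)).trans hm) h7 h8 h9 ?_) ⟨k0, hk0⟩
          rintro ⟨k, hk, h10⟩
          exact hs2 ⟨he', k, by omega, h10⟩) X
  have h7 := cnt_union_le (S ∪ S2) S3 X
  have h8 := cnt_union_le S S2 X
  have h9 := h3 X hXa
  have h10 := (abs_le.1 (h4 X hXc 0)).1
  have hX0 : (0 : ℝ) ≤ X := Nat.cast_nonneg X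
  have h11 : cnt S3 X ≤ nD l (-(1 / (8 * Real.pi ^ 2))) * ((d / 2 ^ (l + 1) + d / 40000 / 2 ^ l) * X) := by
    apply dead_count_E
    intro r
    have h12 := (abs_le.1 (h5 X hXd r)).2
    have h13 : d * (X : ℝ) / ((2 ^ (l + 1) : ℕ) : ℝ) = d / 2 ^ (l + 1) * X := by
      push_cast
      ring
    rw [h13] at h12
    have h14 : cnt {m : ℕ | m % 2 ^ (l + 1) = r % 2 ^ (l + 1) ∧ m ∈ E} X - d / 2 ^ (l + 1) * X ≤
        d / 40000 / 2 ^ l * X := h12
    rw [add_mul]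
    linarith
  have h12 : nD l (-(1 / (8 * Real.pi ^ 2))) * ((d / 2 ^ (l + 1) + d / 40000 / 2 ^ l) * X) ≤
      (199 / 4000 * d + d / 40000) * X := by
    have h13 := nD_start J
    rw [← hl] at h13
    refine (mul_le_mul_of_nonneg_right h13 (by positivity)).trans ?_
    have h14 : 199 / 2000 * (2 : ℝ) ^ l * ((d / 2 ^ (l + 1) + d / 40000 / 2 ^ l) * X) =
        (199 / 4000 * d + 199 / 2000 * (d / 40000)) * X := by
      rw [pow_succ]
      field_simp
      ring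
    rw [h14]
    apply mul_le_mul_of_nonneg_right _ hX0
    linarith
  have h13 : (B : ℝ) ≤ d / 10000 * X := by
    have h14 : 10000 * (B : ℝ) / d ≤ X := hX2.trans (by exact_mod_cast hXb)
    rw [div_le_iff₀ hd] at h14
    linarith
  have h14 : (d / 40000 + C2 * (N : ℝ) ^ (-(1 / 40) : ℝ)) * X ≤ (d / 40000 + d / 40000) * X := by
    apply mul_le_mul_of_nonneg_right _ hX0
    linarith
  have h15 : 0 ≤ d * X := by positivity
  push_cast at h10
  linarith

theorem odd_dens_cb {d : ℝ} (hden : ∀ M : ℕ, 1 ≤ M → ∀ ε : ℝ, 0 < ε → ∃ X0 : ℕ, ∀ X : ℕ,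
    X0 ≤ X → ∀ r : ℕ, |cnt {n : ℕ | n % M = r % M ∧ ∃ k : ℕ, T^[k] n = 1} X - d * X / M| ≤ ε * X) :
    HasDens {m : ℕ | m % 2 = 1 ∧ ∃ c : ℝ, IsCrit m c ∧ ToOne c} (d / 2) := by
  refine hasDens_congr (S := {n : ℕ | n % 2 = 1 % 2 ∧ ∃ k : ℕ, T^[k] n = 1}) (B := 100) ?_ ?_
  · intro m hm
    constructor
    · rintro ⟨h1, h2⟩
      obtain ⟨c, hc, -⟩ := crit_unique m (by omega)
      exact ⟨h1, c, hc, (odd_orbit hm h1 hc).2.1.mpr h2⟩
    · rintro ⟨h1, c, hc, h2⟩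
      exact ⟨h1, (odd_orbit hm h1 hc).2.1.mp h2⟩
  · unfold HasDens
    rw [Metric.tendsto_atTop]
    intro ε hε
    obtain ⟨X0, h⟩ := hden 2 (by norm_num) (ε / 2) (by positivity)
    refine ⟨max X0 1, fun X hX => ?_⟩
    have hX1 : 1 ≤ X := (le_max_right _ _).trans hX
    have hXR : (0 : ℝ) < X := by exact_mod_cast hX1
    have h1 := h X ((le_max_left _ _).trans hX) 1
    rw [Real.dist_eq]
    have e : cnt {n : ℕ | n % 2 = 1 % 2 ∧ ∃ k : ℕ, T^[k] n = 1} X / X - d / 2 =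
        (cnt {n : ℕ | n % 2 = 1 % 2 ∧ ∃ k : ℕ, T^[k] n = 1} X - d * X / (2 : ℕ)) / X := by
      push_cast
      field_simp
    rw [e, abs_div, abs_of_pos hXR, div_lt_iff₀ hXR]
    have : 0 < ε * X := by positivity
    linarith

theorem all_dens_cb {d : ℝ} (hden : ∀ M : ℕ, 1 ≤ M → ∀ ε : ℝ, 0 < ε → ∃ X0 : ℕ, ∀ X : ℕ,
    X0 ≤ X → ∀ r : ℕ, |cnt {n : ℕ | n % M = r % M ∧ ∃ k : ℕ, T^[k] n = 1} X - d * X / M| ≤ ε * X) :
    HasDens {n : ℕ | ∃ k : ℕ, T^[k] n = 1} d := by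
  unfold HasDens
  rw [Metric.tendsto_atTop]
  intro ε hε
  obtain ⟨X0, h⟩ := hden 1 le_rfl (ε / 2) (by positivity)
  refine ⟨max X0 1, fun X hX => ?_⟩
  have hX1 : 1 ≤ X := (le_max_right _ _).trans hX
  have hXR : (0 : ℝ) < X := by exact_mod_cast hX1
  have h1 := h X ((le_max_left _ _).trans hX) 0
  have e0 : {n : ℕ | n % 1 = 0 % 1 ∧ ∃ k : ℕ, T^[k] n = 1} = {n : ℕ | ∃ k : ℕ, T^[k] n = 1} := by
    ext n
    simp [Nat.mod_one]
  rw [e0] at h1
  rw [Real.dist_eq]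
  have e : cnt {n : ℕ | ∃ k : ℕ, T^[k] n = 1} X / X - d =
      (cnt {n : ℕ | ∃ k : ℕ, T^[k] n = 1} X - d * X / (1 : ℕ)) / X := by
    push_cast
    field_simp
  rw [e, abs_div, abs_of_pos hXR, div_lt_iff₀ hXR]
  have : 0 < ε * X := by positivity
  linarith

end Pool.Agent.Lib.MP_a247fa_nt.CB
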