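import Pool.Agent.Lib.MP_a247fa_nt.CB.CaseS
import Pool.Agent.Lib.MP_a247fa_nt.CB.Reach

/-! ReachS: as Reach, with the shadowing bound for all times. -/

set_option autoImplicit false

namespace Pool.Agent.Lib.MP_a247fa_nt.CB

open Finset Pool.Agent.Lib.MP_e43fce_nt_nat
open Pool.Agent.Lib.MP_a247fa_nt (T cf dcf T_pos trapI iter_mem_trap)
open Pool.Agent.Lib.MP_a247fa_nt.Crit

private theorem rpow_small' {C η : ℝ} (hC : 0 < C) (hη : 0 < η) : ∃ N : ℕ, 200 ≤ N ∧
    C * (N : ℝ) ^ (-(1 / 40) : ℝ) ≤ η := by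
  have h1 : Filter.Tendsto (fun N : ℕ => C * (N : ℝ) ^ (-(1 / 40) : ℝ)) Filter.atTop (nhds 0) := by
    have h3 := (tendsto_rpow_neg_atTop (show (0 : ℝ) < 1 / 40 by norm_num)).comp
      tendsto_natCast_atTop_atTop
    have h4 := h3.const_mul C
    simpa using h4
  have h5 := h1.eventually (ge_mem_nhds hη)
  obtain ⟨N, hN⟩ := (h5.and (Filter.eventually_ge_atTop 200)).exists
  exact ⟨N, hN.2, hN.1⟩

theorem even_dens_cbS {d : ℝ} (hd : 0 < d) (hden : ∀ M : ℕ, 1 ≤ M → ∀ ε : ℝ, 0 < ε → ∃ X0 : ℕ, ∀ X : ℕ,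
    X0 ≤ X → ∀ r : ℕ, |cnt {n : ℕ | n % M = r % M ∧ ∃ k : ℕ, T^[k] n = 1} X - d * X / M| ≤ ε * X) :
    ∃ X0 : ℕ, ∀ X : ℕ, X0 ≤ X →
      9 / 20 * d * X ≤ cnt {m : ℕ | m % 2 = 0 ∧ ∃ c : ℝ, IsCrit m c ∧ ToOne c ∧ ∀ k : ℕ, Sh (T^[k] m) (cf^[k] c)} X := by
  classical
  obtain ⟨C2, hC2, h2⟩ := late_even (show (1 / 40 : ℝ) < 1 / 20 by norm_num)
  obtain ⟨N, hN, hN1⟩ := rpow_small' hC2 (show 0 < d / 40000 by positivity)
  obtain ⟨J, h3⟩ := h2 (d / 40000) (by positivity)
  obtain ⟨X1, h3⟩ := h3 N (by omega)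
  set l : ℕ := J + 7 with hl
  obtain ⟨B1, hB1⟩ := alive_allS l
  obtain ⟨B2', hB2⟩ := toOne_at hN
  obtain ⟨M, hM⟩ := orbit_bound N
  set B2 : ℕ := max B2' M with hB2d
  obtain ⟨X3, h4⟩ := hden 2 (by norm_num) (d / 40000) (by positivity)
  obtain ⟨X4, h5⟩ := hden (2 ^ (l + 1)) Nat.one_le_two_pow (d / 40000 / 2 ^ l) (by positivity)
  set B : ℕ := max (max 100 (2 ^ (l + 1) * (N + 1))) (max B1 B2) with hB
  obtain ⟨X2, hX2⟩ := exists_nat_ge (10000 * (B : ℝ) / d)
  refine ⟨max (max X1 X2) (max X3 X4), fun X hX => ?_⟩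
  have hXa : X1 ≤ X := le_trans (le_trans (le_max_left _ _) (le_max_left _ _)) hX
  have hXb : X2 ≤ X := le_trans (le_trans (le_max_right _ _) (le_max_left _ _)) hX
  have hXc : X3 ≤ X := le_trans (le_trans (le_max_left _ _) (le_max_right _ _)) hX
  have hXd : X4 ≤ X := le_trans (le_trans (le_max_right _ _) (le_max_right _ _)) hX
  set E : Set ℕ := {n : ℕ | ∃ k : ℕ, T^[k] n = 1} with hE
  set S : Set ℕ := {m : ℕ | m % 2 = 0 ∧ ∃ c : ℝ, IsCrit m c ∧ ToOne c ∧ ∀ k : ℕ, Sh (T^[k] m) (cf^[k] c)} with hS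
  set S2 : Set ℕ := {m : ℕ | m % 2 = 0 ∧ ∃ k : ℕ, J ≤ k ∧ (5 / 2 : ℝ) * (m : ℝ) < ((T^[k] m : ℕ) : ℝ) ∧
        ∀ i ≤ k, N < T^[i] m} with hS2
  set S3 : Set ℕ := {m : ℕ | m % 2 = 0 ∧ Dead (-(1 / (8 * Real.pi ^ 2))) (pw l (T m)) ∧ m ∈ E} with hS3
  have h6 := cnt_almost (S := {n : ℕ | n % 2 = 0 % 2 ∧ ∃ k : ℕ, T^[k] n = 1})
    (S' := (S ∪ S2) ∪ S3) (B := B) (by
      rintro m hm ⟨he, hr⟩
      have he' : m % 2 = 0 := by simpa using he
      by_cases hd : Dead (-(1 / (8 * Real.pi ^ 2))) (pw l (T m))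
      · exact Or.inr ⟨he', hd, hr⟩
      · left
        by_cases hs2 : m ∈ S2
        · exact Or.inr hs2
        · left
          have hm100 : 100 ≤ m := ((le_max_left _ _).trans (le_max_left _ _)).trans hm
          obtain ⟨c, hc, -⟩ := crit_unique m (by omega)
          refine ⟨he', c, hc, ?_⟩
          have h7 := hB1 m (((le_max_left _ _).trans (le_max_right _ _)).trans hm) he' hd c hc
          obtain ⟨k0, hk0⟩ := hr
          have hex : ∃ k : ℕ, T^[k] m ≤ N := ⟨k0, by rw [hk0]; omega⟩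
          have h8 : T^[Nat.find hex] m ≤ N := Nat.find_spec hex
          have h9 : ∀ i : ℕ, i < Nat.find hex → N < T^[i] m := by
            intro i hi
            have := Nat.find_min hex hi
            omega
          have hnl : ¬ ∃ k : ℕ, l + 1 ≤ k ∧ (5 / 2 : ℝ) * (m : ℝ) < ((T^[k] m : ℕ) : ℝ) ∧
              ∀ i ≤ k, N < T^[i] m := by
            rintro ⟨k, hk, h10⟩
            exact hs2 ⟨he', k, by omega, h10⟩
          have h10 := inj_atS hm100 (((le_max_right _ _).trans (le_max_left _ _)).trans hm) h7.1 h7.2 h8 h9 hnl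
          have hmB2 : B2 ≤ m := ((le_max_right _ _).trans (le_max_right _ _)).trans hm
          refine ⟨hB2 m ((le_max_left _ _).trans hmB2) (Nat.find hex) c h8 h9 h10.1 ⟨k0, hk0⟩, ?_⟩
          intro k
          rcases Nat.lt_or_ge k (Nat.find hex) with h11 | h11
          · exact h10.2 k h11.le
          · refine inj_after hm100 h10.1 (fun i hi => ?_) k h11
            have h12 : T^[i] m ≤ M := by
              have h13 := hM (T^[Nat.find hex] m) h8 ⟨k0 - Nat.find hex, ?_⟩ (i - Nat.find hex)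
              · rw [← Function.iterate_add_apply] at h13
                have e : i - Nat.find hex + Nat.find hex = i := by omega
                rwa [e] at h13
              · rw [← Function.iterate_add_apply]
                have hle : Nat.find hex ≤ k0 := Nat.find_min' hex (by rw [hk0]; omega)
                have e : k0 - Nat.find hex + Nat.find hex = k0 := by omega
                rw [e]
                exact hk0
            have h14 : T^[i] m ≤ m := h12.trans ((le_max_right _ _).trans hmB2)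
            have h15 : ((T^[i] m : ℕ) : ℝ) ≤ m := by exact_mod_cast h14
            have h16 : (0 : ℝ) ≤ m := Nat.cast_nonneg m
            linarith) X
  have h7 := cnt_union_le (S ∪ S2) S3 X
  have h8 := cnt_union_le S S2 X
  have h9 := h3 X hXa
  have h10 := (abs_le.1 (h4 X hXc 0)).1
  have hX0 : (0 : ℝ) ≤ X := Nat.cast_nonneg X
  have h11 : cnt S3 X ≤ nD l (-(1 / (8 * Real.pi ^ 2))) * ((d / 2 ^ (l + 1) + d / 40000 / 2 ^ l) * X) := by
    apply dead_count_E
    intro r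
    have h12 := (abs_le.1 (h5 X hXd r)).2
    have h13 : d * (X : ℝ) / ((2 ^ (l + 1) : ℕ) : ℝ) = d / 2 ^ (l + 1) * X := by
      push_cast
      ring
    rw [h13] at h12
    have h14 : cnt {m : ℕ | m % 2 ^ (l + 1) = r % 2 ^ (l + 1) ∧ m ∈ E} X - d / 2 ^ (l + 1) * X ≤
        d / 40000 / 2 ^ l * X := h12
    rw [add_mul]
    linarith
  have h12 : nD l (-(1 / (8 * Real.pi ^ 2))) * ((d / 2 ^ (l + 1) + d / 40000 / 2 ^ l) * X) ≤
      (199 / 4000 * d + d / 40000) * X := by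
    have h13 := nD_start J
    rw [← hl] at h13
    refine (mul_le_mul_of_nonneg_right h13 (by positivity)).trans ?_
    have h14 : 199 / 2000 * (2 : ℝ) ^ l * ((d / 2 ^ (l + 1) + d / 40000 / 2 ^ l) * X) =
        (199 / 4000 * d + 199 / 2000 * (d / 40000)) * X := by
      rw [pow_succ]
      field_simp
      ring
    rw [h14]
    apply mul_le_mul_of_nonneg_right _ hX0
    linarith
  have h13 : (B : ℝ) ≤ d / 10000 * X := by
    have h14 : 10000 * (B : ℝ) / d ≤ X := hX2.trans (by exact_mod_cast hXb)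
    rw [div_le_iff₀ hd] at h14
    linarith
  have h14 : (d / 40000 + C2 * (N : ℝ) ^ (-(1 / 40) : ℝ)) * X ≤ (d / 40000 + d / 40000) * X := by
    apply mul_le_mul_of_nonneg_right _ hX0
    linarith
  have h15 : 0 ≤ d * X := by positivity
  push_cast at h10
  linarith

end Pool.Agent.Lib.MP_a247fa_nt.CB
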