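import Pool.Agent.Lib.MP_a247fa_nt.Crit.Left5
import Pool.Agent.Lib.MP_a247fa_nt.CB.Defs

/-! StepOdd (40 min). One step, odd `n`: with `d = x - n`, `d n → V` and `n → ∞`.

`cf_odd`: `cf (n + d) = (3 n + 1)/2 + 3/2 d - ((2 n + 1)/4 + d/2) (1 - cos (π d))` (see `left5_odd`), `T n = (3n+1)/2` (`T_odd`). So
`(cf x - T n) T n = 3/2 d (3n+1)/2 - ((2n+1)/4 + d/2) ((3n+1)/2) (1 - cos (π d))`, first term `→ 9/4 V`, and
`n² (1 - cos (π d)) → π² V² / 2` (from `one_sub_cos_le`, `le_one_sub_cos`: `π²d²/2 - π⁴d⁴/24 ≤ 1 - cos (π d) ≤ π²d²/2`), second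
term `→ 3/4 * π² V²/2`. Either by explicit estimates or with sequences/filters (`by_contra`, choose a sequence; or
`Filter.Tendsto` on `ℕ × ℝ` with the filter `atTop ×ˢ ...`). -/

set_option autoImplicit false

namespace Pool.Agent.Lib.MP_a247fa_nt.CB

open Pool.Agent.Lib.MP_a247fa_nt (T cf)

private theorem so_mul_sinc (x : ℝ) : x * Real.sinc x = Real.sin x := by
  rcases eq_or_ne x 0 with rfl | h
  · simp
  · rw [Real.sinc_of_ne_zero h]
    field_simp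

private theorem so_cos (y : ℝ) : 1 - Real.cos y = y ^ 2 / 2 * Real.sinc (y / 2) ^ 2 := by
  have h1 := Real.sin_sq_eq_half_sub (y / 2)
  have h2 := so_mul_sinc (y / 2)
  rw [show 2 * (y / 2) = y by ring] at h1
  have h3 : Real.sin (y / 2) ^ 2 = (y / 2) ^ 2 * Real.sinc (y / 2) ^ 2 := by rw [← h2]; ring
  linarith

/-- the quantity of one step as a continuous function of `t = 1 / n` and `v` -/
private noncomputable def soF (q : ℝ × ℝ) : ℝ :=
  3 / 2 * q.2 * ((3 + q.1) / 2) - (2 + 2 * q.2 * q.1 ^ 2 + q.1) / 4 * ((3 + q.1) / 2) *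
    (Real.pi ^ 2 * q.2 ^ 2 / 2 * Real.sinc (Real.pi * q.2 * q.1 / 2) ^ 2)

private theorem soF_cont : Continuous soF := by
  unfold soF
  have h := Real.continuous_sinc
  fun_prop

private theorem soF_zero (V : ℝ) : soF (0, V) = 9 / 4 * V - 3 * Real.pi ^ 2 / 8 * V ^ 2 := by
  unfold soF
  simp only [mul_zero, zero_div, Real.sinc_zero]
  ring

private theorem so_eq {n : ℕ} (hn : n % 2 = 1) (x : ℝ) :
    (cf x - ((T n : ℕ) : ℝ)) * ((T n : ℕ) : ℝ) = soF (1 / (n : ℝ), (x - n) * n) := by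
  have hn0 : (n : ℝ) ≠ 0 := by
    have h1 : n ≠ 0 := by omega
    exact_mod_cast h1
  have hT : ((T n : ℕ) : ℝ) = (3 * n + 1) / 2 := by
    obtain ⟨m, rfl⟩ : ∃ m, n = 2 * m + 1 := ⟨n / 2, by omega⟩
    have h1 : T (2 * m + 1) = 3 * m + 2 := by
      unfold T
      rw [if_neg (by omega)]
      omega
    rw [h1]
    push_cast
    ring
  have hcos : Real.cos (Real.pi * x) = -Real.cos (Real.pi * (x - n)) := by
    have h1 := Real.cos_add_nat_mul_pi (Real.pi * (x - n)) n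
    rw [Odd.neg_one_pow (Nat.odd_iff.2 hn)] at h1
    rw [show Real.pi * x = Real.pi * (x - n) + n * Real.pi by ring, h1]
    ring
  have hc := so_cos (Real.pi * (x - n))
  have hc2 : Real.cos (Real.pi * (x - n)) =
      1 - (Real.pi * (x - n)) ^ 2 / 2 * Real.sinc (Real.pi * (x - n) / 2) ^ 2 := by linarith
  unfold cf soF
  rw [hT, hcos, hc2]
  have h3 : Real.pi * ((x - n) * n) * (1 / (n : ℝ)) / 2 = Real.pi * (x - n) / 2 := by
    field_simp
  simp only [h3]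
  generalize Real.sinc (Real.pi * (x - n) / 2) = s
  field_simp
  ring

theorem step_odd (V : ℝ) {ε : ℝ} (hε : 0 < ε) : ∃ δ : ℝ, 0 < δ ∧ ∃ B : ℕ, ∀ n : ℕ, B ≤ n → n % 2 = 1 →
    ∀ x : ℝ, |(x - n) * n - V| < δ →
      |(cf x - ((T n : ℕ) : ℝ)) * ((T n : ℕ) : ℝ) - (9 / 4 * V - 3 * Real.pi ^ 2 / 8 * V ^ 2)| < ε := by
  obtain ⟨δ, hδ, h⟩ := Metric.continuousAt_iff.1 (soF_cont.continuousAt (x := ((0 : ℝ), V))) ε hε
  obtain ⟨B, hB⟩ := exists_nat_gt (1 / δ)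
  refine ⟨δ, hδ, B, fun n hn ho x hx => ?_⟩
  have h0 : (0 : ℝ) < n := by
    have h1 : 0 < n := by omega
    exact_mod_cast h1
  have h1 : 1 / (n : ℝ) < δ := by
    rw [div_lt_iff₀ h0]
    rw [div_lt_iff₀ hδ] at hB
    have h2 : (B : ℝ) ≤ n := by exact_mod_cast hn
    nlinarith
  have h2 : dist ((1 / (n : ℝ), (x - n) * n) : ℝ × ℝ) (0, V) < δ := by
    rw [Prod.dist_eq, max_lt_iff]
    refine ⟨?_, ?_⟩
    · rw [Real.dist_eq, sub_zero, abs_of_pos (by positivity)]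
      exact h1
    · rw [Real.dist_eq]
      exact hx
  have h3 := h h2
  rw [Real.dist_eq, soF_zero] at h3
  rw [so_eq ho]
  exact h3

end Pool.Agent.Lib.MP_a247fa_nt.CB
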